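import Pool.Agent.Helper55.CF.Goals2

open MeasureTheory Complex
open scoped ContDiff ComplexConjugate

noncomputable section
namespace CF55

theorem stmtA1 (hM : G_MORSE2) (hC : G_CHG2) (hCr : G_CRIT) (hT : G_TYPE1) : G_A1 := by
  intro T e w d hS hA hgood
  obtain ⟨h, Θ, L, ξ, hcont, hΘ0, hΘs, hΘd, hev, hξc, hξ0, hξ⟩ :=
    hM T e hS hA.t00 hA.t011 hA.t022 hA.t012
  have hbox := hCr T e w d hS hA h ξ hξc hξ0 hξ
  have hsum := hA.sum
  rw [Fin.sum_univ_six, hA.w0] at hsum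
  have hp := hA.pair
  have hw1 := hA.wpos 1 (by decide)
  refine hT ![w 3, w 4, w 5] d h (by omega) ?_ hbox hcont ?_
  · rw [Fin.sum_univ_three]
    simp only [Matrix.cons_val_zero, Matrix.cons_val_one, Matrix.cons_val]
    omega
  · exact hC (chart T e) _ Θ L hgood hΘ0 hΘs hΘd hev

end CF55
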