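import Pool.Agent.Helper55.CF.Goals

/-!
Corrected versions of `G_CHG`, `G_XI`, `G_MORSE`: smoothness is required at all points near `0`
(in Mathlib `ContDiffAt ℝ ∞ Θ 0` is weaker than smoothness on a neighbourhood).
-/

open MeasureTheory Complex
open scoped ContDiff ComplexConjugate

noncomputable section
namespace CF55

/-- invariance under local diffeomorphisms -/
def G_CHG2 : Prop := ∀ (f ft : E → ℂ) (Θ : E → E) (L : E ≃L[ℝ] E), GoodOn f → Θ 0 = 0 →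
  (∀ᶠ x in nhds 0, ContDiffAt ℝ ∞ Θ x) → HasFDerivAt Θ (L : E →L[ℝ] E) 0 →
  (∀ᶠ x in nhds 0, ft x = f (Θ x)) → GoodOn ft

/-- the critical point -/
def G_XI2 : Prop := ∀ (T : Tri) (e : Fin 6 → V), Sym T → (∀ a, T (e 0) (e 0) (e a) = 0) →
  T (e 0) (e 1) (e 1) = 0 → T (e 0) (e 2) (e 2) = 0 → T (e 0) (e 1) (e 2) ≠ 0 →
  ∃ ξ : Z → ℂ × ℂ, (∀ᶠ z in nhds 0, ContDiffAt ℝ ∞ ξ z) ∧ ξ 0 = 0 ∧
    ∀ᶠ z : Z in nhds 0,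
      T (chartVec e ((ξ z).1, (ξ z).2, z)) (chartVec e ((ξ z).1, (ξ z).2, z)) (e 1) = 0 ∧
      T (chartVec e ((ξ z).1, (ξ z).2, z)) (chartVec e ((ξ z).1, (ξ z).2, z)) (e 2) = 0

/-- Morse lemma with parameters -/
def G_MORSE2 : Prop := ∀ (T : Tri) (e : Fin 6 → V), Sym T → (∀ a, T (e 0) (e 0) (e a) = 0) →
  T (e 0) (e 1) (e 1) = 0 → T (e 0) (e 2) (e 2) = 0 → T (e 0) (e 1) (e 2) ≠ 0 →
  ∃ (h : Z → ℂ) (Θ : E → E) (L : E ≃L[ℝ] E) (ξ : Z → ℂ × ℂ), Continuous h ∧ Θ 0 = 0 ∧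
    (∀ᶠ x in nhds 0, ContDiffAt ℝ ∞ Θ x) ∧ HasFDerivAt Θ (L : E →L[ℝ] E) 0 ∧
    (∀ᶠ x : E in nhds 0, x.1 ^ 2 + x.2.1 ^ 2 + h x.2.2 = chart T e (Θ x)) ∧
    ContinuousAt ξ 0 ∧ ξ 0 = 0 ∧
    ∀ᶠ z : Z in nhds 0, h z = chart T e ((ξ z).1, (ξ z).2, z) ∧
      T (chartVec e ((ξ z).1, (ξ z).2, z)) (chartVec e ((ξ z).1, (ξ z).2, z)) (e 1) = 0 ∧
      T (chartVec e ((ξ z).1, (ξ z).2, z)) (chartVec e ((ξ z).1, (ξ z).2, z)) (e 2) = 0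

end CF55
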