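import Pool.Agent.Helper74.CF.A23
import Pool.Agent.Helper55.CF.Goals2

/-! The proof of `stmtA2` by helper74, with the corrected change of variables statement. -/

open MeasureTheory Complex
open scoped ContDiff ComplexConjugate Topology

noncomputable section
namespace H74CF
open CF55

theorem stmtA2x (hC : G_CHG2) (hT : G_TYPE2) : G_A2 := by
  intro T e hS hA hG
  set m : Z → ℂ := fun z => 3 * T (e 1) (e 2) (zv e z) with hm
  set z' : Z → Z := fun z => ![z 0 + m z ^ 2, z 1, z 2] with hz'
  set q1 : Z → ℂ := fun z => 3 / 2 * T (e 1) (zv e z) (zv e z) with hq1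
  set q5 : Z → ℂ := fun z => 3 / 2 * T (e 2) (zv e z) (zv e z) with hq5
  set c : Z → ℂ := fun z => T (zv e z) (zv e z) (zv e z) with hc
  have vm : Van 1 m := van_cmul _ (van_lin T e _ _ (fun z => z) van_coord)
  have vz' : ∀ i, Van 1 (fun z => z' z i) := by
    intro i
    fin_cases i
    · have h1 : Van 1 (fun z : Z => z 0 + m z * m z) :=
        van_add (van_coord 0) (van_mono (by norm_num) (van_mul vm vm))
      simpa [hz', sq] using h1
    · simpa [hz'] using van_coord 1
    · simpa [hz'] using van_coord 2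
  have vq1 : Van 2 (fun z => q1 (z' z)) := van_cmul _ (van_quad T e _ z' vz')
  have vq5 : Van 2 (fun z => q5 (z' z)) := van_cmul _ (van_quad T e _ z' vz')
  have vc : Van 3 (fun z => c (z' z)) := van_cub T e z' vz'
  have mz' : ∀ z, m (z' z) = m z := by
    intro z
    simp only [hm, zv_lin, hA.t123, hz']
    simp
  refine hT (fun z => q1 (z' z) + (-1) * (m z * q5 (z' z)))
    (fun z => c (z' z) + (-1) * (q5 (z' z) * q5 (z' z)))
    (van_add vq1 (van_cmul _ (van_mono (by norm_num) (van_mul vm vq5))))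
    (van_add vc (van_cmul _ (van_mono (by norm_num) (van_mul vq5 vq5)))) ?_
  set R : E → E := fun p => (0, -(m p.2.2 * p.1 + q5 (z' p.2.2)), ![m p.2.2 ^ 2, 0, 0]) with hR
  have hRO : R =O[𝓝 0] fun p => ‖p - 0‖ ^ 2 := by
    refine Asymptotics.IsBigO.prod_left (Asymptotics.isBigO_zero _ _)
      (Asymptotics.IsBigO.prod_left ?_ ?_)
    · refine Asymptotics.IsBigO.neg_left (Asymptotics.IsBigO.add ?_ (bigO_van vq5))
      have h1 := bigO_van vm
      have h2 : (fun p : E => p.1) =O[𝓝 0] fun p => ‖p - 0‖ ^ 1 := by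
        refine Asymptotics.IsBigO.of_bound 1 (Filter.Eventually.of_forall fun p => ?_)
        simpa using norm_fst_le p
      refine (h1.mul h2).trans (Asymptotics.IsBigO.of_bound 1
        (Filter.Eventually.of_forall fun p => ?_))
      simp [sq]
    · rw [Asymptotics.isBigO_pi]
      intro i
      fin_cases i
      · have h1 := bigO_van (van_mul vm vm)
        simpa [sq] using h1
      · simpa using Asymptotics.isBigO_zero _ _
      · simpa using Asymptotics.isBigO_zero _ _
  have hΘ : ∀ p : E, (fun p : E => p + R p) p =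
      (p.1, p.2.1 - m p.2.2 * p.1 - q5 (z' p.2.2), z' p.2.2) := by
    intro p
    refine Prod.ext (by simp [hR]) (Prod.ext (by simp [hR]; ring) ?_)
    funext i
    fin_cases i <;> simp [hR, hz']
  have cm : ContDiff ℝ ∞ m := vm.1.restrict_scalars ℝ
  have cq : ContDiff ℝ ∞ (fun z => q5 (z' z)) := vq5.1.restrict_scalars ℝ
  have cp : ContDiff ℝ ∞ (fun p : E => p.2.2) := contDiff_snd.comp contDiff_snd
  refine hC (chart T e) _ (fun p => p + R p) (ContinuousLinearEquiv.refl ℝ E) hG ?_ ?_ ?_ ?_
  · have e1 : m 0 = 0 := by simp [hm, zv]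
    have e2 : q5 (z' 0) = 0 := van_at vq5
    have h0 : R 0 = 0 := by
      refine Prod.ext (by simp [hR]) (Prod.ext (by simp [hR, e1, e2]) ?_)
      funext i
      fin_cases i <;> simp [hR, e1]
    simp [h0]
  · refine Filter.Eventually.of_forall fun x => ?_
    refine contDiffAt_id.add (ContDiff.contDiffAt ?_)
    refine contDiff_const.prodMk (ContDiff.prodMk ?_ ?_)
    · exact (((cm.comp cp).mul contDiff_fst).add (cq.comp cp)).neg
    · rw [contDiff_pi]
      intro i
      fin_cases i
      · simpa using (cm.comp cp).pow 2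
      · simpa using contDiff_const
      · simpa using contDiff_const
  · have h1 : HasFDerivAt R (0 : E →L[ℝ] E) 0 := hRO.hasFDerivAt (by norm_num)
    have h2 := (hasFDerivAt_id (𝕜 := ℝ) (0 : E)).add h1
    rw [add_zero] at h2
    exact h2
  · refine Filter.Eventually.of_forall fun p => ?_
    have h1 := hΘ p
    simp only at h1
    rw [h1, chart2 hS hA]
    have h2 := mz' p.2.2
    have h3 : z' p.2.2 0 = p.2.2 0 + m p.2.2 ^ 2 := by simp [hz']
    simp only [h3]
    change _ = (p.2.1 - m p.2.2 * p.1 - q5 (z' p.2.2)) ^ 2 + (p.2.2 0 + m p.2.2 ^ 2) * p.1 ^ 2 +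
      2 * p.1 * (p.2.1 - m p.2.2 * p.1 - q5 (z' p.2.2)) * m (z' p.2.2) +
      2 * q1 (z' p.2.2) * p.1 +
      2 * q5 (z' p.2.2) * (p.2.1 - m p.2.2 * p.1 - q5 (z' p.2.2)) + c (z' p.2.2)
    rw [h2]
    ring

end H74CF
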