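import Pool.Agent.Helper55.CF.Goals

open MeasureTheory Complex
open scoped ContDiff ComplexConjugate

noncomputable section
namespace CF55

/-- flag fact -/
theorem flag (T : Tri) (e : Fin 6 → V) (D : ℝ) (w : Fin 6 → ℝ) (hmono : Monotone w)
    (hw : ∀ a b c, T (e a) (e b) (e c) ≠ 0 → D < w a + w b + w c)
    (i j k : Fin 6) (h : w i + w j + w k ≤ D) :
    ∀ a ∈ Fl e i, ∀ b ∈ Fl e j, ∀ c ∈ Fl e k, T a b c = 0 := by
  have key : ∀ x ≤ i, ∀ y ≤ j, ∀ z ≤ k, T (e x) (e y) (e z) = 0 := by
    intro x hx y hy z hz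
    by_contra hne
    have := hw x y z hne
    have h1 := hmono hx
    have h2 := hmono hy
    have h3 := hmono hz
    linarith
  intro a ha
  unfold Fl at ha
  induction ha using Submodule.span_induction with
  | mem a ha =>
    obtain ⟨x, hx, rfl⟩ := ha
    intro b hb
    unfold Fl at hb
    induction hb using Submodule.span_induction with
    | mem b hb =>
      obtain ⟨y, hy, rfl⟩ := hb
      intro c hc
      unfold Fl at hc
      induction hc using Submodule.span_induction with
      | mem c hc =>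
        obtain ⟨z, hz, rfl⟩ := hc
        exact key x hx y hy z hz
      | zero => simp
      | add c c' _ _ h1 h2 => rw [map_add, h1, h2, add_zero]
      | smul t c _ h1 => rw [map_smul, h1, smul_zero]
    | zero => intro c _; simp
    | add b b' _ _ h1 h2 => intro c hc; rw [map_add, LinearMap.add_apply, h1 c hc, h2 c hc, add_zero]
    | smul t b _ h1 => intro c hc; rw [map_smul, LinearMap.smul_apply, h1 c hc, smul_zero]
  | zero => intro b _ c _; simp
  | add a a' _ _ h1 h2 =>
    intro b hb c hc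
    rw [map_add, LinearMap.add_apply, LinearMap.add_apply, h1 b hb c hc, h2 b hb c hc, add_zero]
  | smul t a _ h1 =>
    intro b hb c hc
    rw [map_smul, LinearMap.smul_apply, LinearMap.smul_apply, h1 b hb c hc, smul_zero]

theorem Fl_five (e : Fin 6 → V) (he : LinearIndependent ℂ e) : Fl e 5 = ⊤ := by
  unfold Fl
  have h1 : {i : Fin 6 | i ≤ 5} = Set.univ := by
    ext i; simp; omega
  rw [h1, Set.image_univ]
  apply LinearIndependent.span_eq_top_of_card_eq_finrank' he
  simp

theorem stmtCLASS (hR2 : G_R2) (hCA : G_CA) (hCT : G_CT) (hCS : G_CS) (hCJ3 : G_CJ3)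
    (hCJ2 : G_CJ2) : G_CLASS := by
  intro T hS hU
  obtain ⟨e, he, w, hm, hw0, hw⟩ := hU
  have hfl := flag T e _ w hm hw
  have hsum : ∑ i, w i = w 1 + w 2 + w 3 + w 4 + w 5 := by
    rw [Fin.sum_univ_six, hw0]; ring
  have fin1 : R2pat T ∨ LowRank T → (∃ e w d, A1data T e w d) ∨ LowRank T := by
    rintro (h | h)
    · exact Or.inl (hR2 T hS h)
    · exact Or.inr h
  by_cases hA : w 2 + w 3 + w 4 ≤ (∑ i, w i) / 2
  · exact fin1 (hCA T e hS he (hfl 2 3 4 hA))
  push Not at hA
  by_cases hT : w 3 + w 4 ≤ (∑ i, w i) / 2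
  · by_cases hc : T (e 0) (e 4) (e 4) = 0 ∨
      (T (e 0) (e 1) (e 5) = 0 ∧ T (e 0) (e 2) (e 5) = 0 ∧ T (e 0) (e 3) (e 5) = 0)
    · exact fin1 (hCS T e w hS he hm hw0 hw hT hA hc)
    push Not at hc
    obtain ⟨h44, hc⟩ := hc
    have h1 : T (e 0) (e 1) (e 5) = 0 := by
      by_contra hne
      have := hw 0 1 5 hne
      rw [hsum] at this hA
      linarith
    by_cases h2 : T (e 0) (e 2) (e 5) = 0
    · exact Or.inl (hCJ3 T e w hS he hm hw0 hw hT hA h44 h1 h2 (hc h1 h2))
    · rcases hCJ2 T e w hS he hm hw0 hw hT hA h44 h1 h2 with h | h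
      · exact Or.inl h
      · exact fin1 h
  · push Not at hT
    apply fin1
    apply hCT T e hS he
    intro a ha b hb c
    refine hfl 1 2 5 ?_ a ha b hb c ?_
    · rw [hsum] at hT ⊢; linarith
    · rw [Fl_five e he]; trivial

end CF55
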