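import Pool.Agent.Helper55.CF.Goals

open MeasureTheory Complex
open scoped ContDiff ComplexConjugate

noncomputable section
namespace CF55

theorem polar2 (T : Tri) (hS : Sym T) (P : V) (h : ∀ v, T P v v = 0) : ∀ v v', T P v v' = 0 := by
  intro v v'
  have h1 := h (v + v')
  rw [map_add, LinearMap.map_add, LinearMap.add_apply, LinearMap.add_apply, h v, h v',
    hS.s23 P v' v] at h1
  have : 2 * T P v v' = 0 := by linear_combination h1
  simpa using this

theorem badTK (hTK : G_TK) (T : Tri) (hS : Sym T) (h : TwoKer T) : Bad T := by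
  rcases hTK T hS h with h | h | h
  · exact Or.inl h
  · exact Or.inr (Or.inr (Or.inr (Or.inl h)))
  · exact Or.inr (Or.inr (Or.inr (Or.inr (Or.inl h))))

theorem badR1 (hR2 : G_R2) (hCU : G_CUBE) (hTK : G_TK) (hR1a : G_R1a) (hR1b : G_R1b)
    (T : Tri) (hS : Sym T) (P : V) (hP : P ≠ 0) (h0 : ∀ v, T P P v = 0) (m : V →ₗ[ℂ] ℂ)
    (hm : m ≠ 0) (h1 : ∀ v, T P v v = m v ^ 2) : Bad T := by
  by_cases hc : ∃ u, m u = 0 ∧ T u u u = 0 ∧ ∃ v, m v = 0 ∧ T u u v ≠ 0
  · obtain ⟨u, hu, huu, v, hv⟩ := hc
    exact Or.inr (Or.inr (Or.inl (hR1a T P m hS hP hm h0 h1 u hu huu ⟨v, hv⟩)))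
  · push Not at hc
    obtain ⟨l, hl⟩ := hCU T (LinearMap.ker m) hS (by
      intro u hu huu v hv
      exact hc u (by simpa using hu) huu v (by simpa using hv))
    rcases hR1b T P m l hS hP hm h0 h1 (by
      intro x y z hx hy hz
      exact hl x (by simpa using hx) y (by simpa using hy) z (by simpa using hz)) with h | h
    · exact Or.inr (Or.inl (hR2 T hS h))
    · exact badTK hTK T hS h

theorem stmtLOW (hR2 : G_R2) (hCU : G_CUBE) (hTK : G_TK) (hR1a : G_R1a) (hR1b : G_R1b)
    (hBETA : G_BETA) (hNODE : G_NODE) (hCC : G_CC) (hNORM : G_NORM) : G_LOW := by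
  intro T hS hL
  obtain ⟨P, hP, h0, m, h1⟩ := hL
  by_cases hm : m = 0
  swap
  · exact badR1 hR2 hCU hTK hR1a hR1b T hS P hP h0 m hm h1
  subst hm
  have hP0 : ∀ v v', T P v v' = 0 := polar2 T hS P (by intro v; rw [h1 v]; simp)
  by_cases hk : TwoKer T
  · exact badTK hTK T hS hk
  by_cases hN : Nodal T P
  swap
  · unfold Nodal at hN
    push Not at hN
    obtain ⟨s, hs, v, hv, hvn⟩ := hN
    have hli : LinearIndependent ℂ ![P, s, v] := by
      have h2 := hs.1
      rw [LinearIndependent.pair_iff] at h2
      rw [Fintype.linearIndependent_iff]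
      intro g hg
      rw [Fin.sum_univ_three] at hg
      simp only [Matrix.cons_val_zero, Matrix.cons_val_one, Matrix.cons_val] at hg
      have hg2 : g 2 = 0 := by
        by_contra hne
        apply hvn
        rw [Submodule.mem_span_pair]
        refine ⟨-(g 0 / g 2), -(g 1 / g 2), ?_⟩
        have : g 2 • v = -(g 0 • P) - g 1 • s := by
          rw [← sub_eq_zero]; rw [← hg]; abel
        have h3 : v = (g 2)⁻¹ • (g 2 • v) := by rw [smul_smul, inv_mul_cancel₀ hne, one_smul]
        rw [h3, this, smul_sub, smul_neg, smul_smul, smul_smul]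
        rw [sub_eq_add_neg, neg_smul, neg_smul, div_eq_inv_mul, div_eq_inv_mul]
      rw [hg2, zero_smul, add_zero] at hg
      obtain ⟨ha, hb⟩ := h2 _ _ hg
      intro i
      fin_cases i
      · exact ha
      · exact hb
      · exact hg2
    rcases hBETA T P s hS hP0 hs ⟨v, hli, hv⟩ with ⟨m', hm'⟩ | h
    · have hs0 : s ≠ 0 := by
        have := hs.1.ne_zero 1
        simpa using this
      by_cases hm0 : m' = 0
      · exfalso
        apply hk
        refine ⟨P, s, hs.1, hP0, ?_⟩
        apply polar2 T hS s
        intro v; rw [hm' v, hm0]; simp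
      · exact badR1 hR2 hCU hTK hR1a hR1b T hS s hs0 hs.2 m' hm0 hm'
    · exact Or.inr (Or.inl h)
  · obtain ⟨u, hu, huu, ⟨v₀, hv₀⟩, hsing⟩ := hNODE T P hS hP hP0 hN
    -- the kernel of `T u u`
    have hTu : T u u ≠ 0 := by
      intro h; rw [h] at hv₀; simp at hv₀
    have hker : Module.finrank ℂ (LinearMap.ker (T u u)) = 5 := by
      have hr := LinearMap.finrank_range_add_finrank_ker (T u u)
      have hsurj : Function.Surjective (T u u) := by
        intro c
        refine ⟨(c / T u u v₀) • v₀, ?_⟩
        rw [map_smul, smul_eq_mul, div_mul_cancel₀ _ hv₀]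
      rw [LinearMap.range_eq_top.2 hsurj] at hr
      simp at hr
      omega
    -- complement of span {P, u} in the kernel
    have hPk : P ∈ LinearMap.ker (T u u) := by
      rw [LinearMap.mem_ker, hS.s23, hS.s12, hP0]
    have huk : u ∈ LinearMap.ker (T u u) := huu
    obtain ⟨H', hH'⟩ := Submodule.exists_isCompl (Submodule.span ℂ ({P, u} : Set V))
    -- H = H' ⊓ ker
    have hspan : Module.finrank ℂ (Submodule.span ℂ ({P, u} : Set V)) = 2 := by
      have h2 := finrank_span_eq_card hu
      have h3 : Set.range ![P, u] = {P, u} := by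
        simp [Matrix.range_cons, Matrix.range_empty, Set.pair_comm]
      rw [h3] at h2
      simpa using h2
    have hH'r : Module.finrank ℂ H' = 4 := by
      have := Submodule.finrank_add_eq_of_isCompl hH'
      rw [hspan] at this
      simp at this
      omega
    have hHr : 3 ≤ Module.finrank ℂ (H' ⊓ LinearMap.ker (T u u) : Submodule ℂ V) := by
      have h2 := Submodule.finrank_sup_add_finrank_inf_eq H' (LinearMap.ker (T u u))
      rw [hH'r, hker] at h2
      have h3 := Submodule.finrank_le (H' ⊔ LinearMap.ker (T u u))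
      simp at h3
      omega
    obtain ⟨v, hvH, hv0, hv1, hv2⟩ := hCC T u _ hS hHr
    obtain ⟨hvH', hvk⟩ := Submodule.mem_inf.1 hvH
    have hvk' : T u u v = 0 := by simpa using hvk
    have hli : LinearIndependent ℂ ![P, u, v] := by
      have h2 := hu
      rw [LinearIndependent.pair_iff] at h2
      rw [Fintype.linearIndependent_iff]
      intro g hg
      rw [Fin.sum_univ_three] at hg
      simp only [Matrix.cons_val_zero, Matrix.cons_val_one, Matrix.cons_val] at hg
      have hg2 : g 2 = 0 := by
        by_contra hne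
        have h3 : g 2 • v ∈ Submodule.span ℂ ({P, u} : Set V) := by
          rw [Submodule.mem_span_pair]
          refine ⟨-(g 0), -(g 1), ?_⟩
          rw [neg_smul, neg_smul]
          rw [← sub_eq_zero]
          rw [← neg_eq_zero, ← hg]; abel
        have h4 : v ∈ Submodule.span ℂ ({P, u} : Set V) := by
          have := Submodule.smul_mem _ (g 2)⁻¹ h3
          rwa [smul_smul, inv_mul_cancel₀ hne, one_smul] at this
        exact hv0 (Submodule.disjoint_def.1 hH'.disjoint v h4 hvH')
      rw [hg2, zero_smul, add_zero] at hg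
      obtain ⟨ha, hb⟩ := h2 _ _ hg
      intro i
      fin_cases i
      · exact ha
      · exact hb
      · exact hg2
    refine Or.inr (Or.inr (Or.inr (Or.inr (Or.inr ?_))))
    apply hNORM T P u v hS hP0 hli huu hvk' hv1 hv2
    intro a b hab
    by_contra hcon
    push Not at hcon
    have hw : SingPt T P (a • u + b • v) := by
      refine ⟨?_, hcon⟩
      rw [LinearIndependent.pair_iff]
      intro x y hxy
      rw [Fintype.linearIndependent_iff] at hli
      have h3 := hli ![x, y * a, y * b] (by
        rw [Fin.sum_univ_three]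
        simp only [Matrix.cons_val_zero, Matrix.cons_val_one, Matrix.cons_val]
        rw [← hxy, smul_add, smul_smul, smul_smul]; abel)
      have e0 := h3 0
      have e1 := h3 1
      have e2 := h3 2
      simp only [Matrix.cons_val_zero, Matrix.cons_val_one, Matrix.cons_val] at e0 e1 e2
      refine ⟨e0, ?_⟩
      rcases hab with h | h
      · rcases mul_eq_zero.1 e1 with h' | h'
        · exact h'
        · exact absurd h' h
      · rcases mul_eq_zero.1 e2 with h' | h'
        · exact h'
        · exact absurd h' h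
    apply hsing _ hw
    rw [map_add, map_smul, map_smul, LinearMap.add_apply, LinearMap.smul_apply,
      LinearMap.smul_apply, LinearMap.add_apply, LinearMap.smul_apply, LinearMap.smul_apply, huu,
      hS.s12 v u u, hS.s23 u v u, hvk']
    simp

end CF55
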