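import Pool.Agent.Helper38.CF.XI
import Pool.Agent.Helper86.CF.Morse
import Pool.Agent.Helper55.CF.Goals2

/-!
Analytic versions (`ContDiffAt ℝ ω`) of helper38's `stmtXI` and helper86's `stmtMORSE`; analyticity
at the point gives smoothness on a neighbourhood.
-/

open MeasureTheory Complex Filter Topology
open scoped ContDiff ComplexConjugate

noncomputable section
namespace CF55.An

open CF55

theorem ccA (i : Fin 6) : ContDiff ℝ ω (XI38.cc i) := by
  have h : XI38.cc i = fun p => XI38.cc i 0 + XI38.dc i p := by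
    funext p; exact XI38.cc_eq i p
  rw [h]
  exact contDiff_const.add (XI38.dc i).contDiff

theorem contDiff_TA (T : Tri) (e : Fin 6 → V) (a : V) :
    ContDiff ℝ ω (fun p => T (chartVec e p) (chartVec e p) a) := by
  have h : (fun p => T (chartVec e p) (chartVec e p) a) =
      fun p => ∑ i, ∑ j, (XI38.cc i p * XI38.cc j p) * T (e i) (e j) a := by
    funext p; exact XI38.T_eq T e a p
  rw [h]
  refine ContDiff.sum fun i _ => ContDiff.sum fun j _ => ?_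
  exact ((ccA i).mul (ccA j)).mul contDiff_const

theorem contDiff_HA (T : Tri) (e : Fin 6 → V) : ContDiff ℝ ω (XI38.HH T e) := by
  refine (contDiff_TA T e (e 1)).prodMk ((contDiff_TA T e (e 2)).prodMk ?_)
  exact ((ContinuousLinearMap.snd ℝ ℂ Z).comp
    (ContinuousLinearMap.snd ℝ ℂ (ℂ × Z))).contDiff

/-- analytic version of `G_XI` -/
def G_XIA : Prop := ∀ (T : Tri) (e : Fin 6 → V), Sym T → (∀ a, T (e 0) (e 0) (e a) = 0) →
  T (e 0) (e 1) (e 1) = 0 → T (e 0) (e 2) (e 2) = 0 → T (e 0) (e 1) (e 2) ≠ 0 →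
  ∃ ξ : Z → ℂ × ℂ, ContDiffAt ℝ ω ξ 0 ∧ ξ 0 = 0 ∧
    ∀ᶠ z : Z in nhds 0,
      T (chartVec e ((ξ z).1, (ξ z).2, z)) (chartVec e ((ξ z).1, (ξ z).2, z)) (e 1) = 0 ∧
      T (chartVec e ((ξ z).1, (ξ z).2, z)) (chartVec e ((ξ z).1, (ξ z).2, z)) (e 2) = 0

theorem xiA : G_XIA := by
  intro T e hS h0 h1 h2 h12
  have hinj := XI38.dH_inj T e hS h0 h1 h2 h12
  let L0 : E ≃ₗ[ℝ] E := LinearEquiv.ofInjectiveEndo
    ((XI38.dH T e : E →L[ℝ] E) : E →ₗ[ℝ] E) hinj
  let L : E ≃L[ℝ] E := L0.toContinuousLinearEquiv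
  have hL : (L : E →L[ℝ] E) = XI38.dH T e := by
    ext p <;> rfl
  have hf' : HasFDerivAt (XI38.HH T e) (L : E →L[ℝ] E) 0 := by
    rw [hL]; exact XI38.hasFDeriv_H T e
  have hf : ContDiffAt ℝ ω (XI38.HH T e) 0 := (contDiff_HA T e).contDiffAt
  have hn : (ω : WithTop ℕ∞) ≠ 0 := by simp
  have hH0 : XI38.HH T e 0 = 0 := by
    simp [XI38.HH, chartVec, h0]
  let Ψ := hf.localInverse hf' hn
  have hΨ : ContDiffAt ℝ ω Ψ (XI38.HH T e 0) := hf.to_localInverse hf' hn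
  have hΨ0 : Ψ 0 = 0 := by
    have := hf.localInverse_apply_image hf' hn
    rw [hH0] at this; exact this
  have hr : ∀ᶠ q in nhds (XI38.HH T e 0), XI38.HH T e (Ψ q) = q :=
    (hf.hasStrictFDerivAt' hf' hn).eventually_right_inverse
  rw [hH0] at hΨ hr
  let ι : Z → E := fun z => (0, 0, z)
  have hι : ContDiff ℝ ω ι := contDiff_const.prodMk (contDiff_const.prodMk contDiff_id)
  have hι0 : ι 0 = 0 := rfl
  have hΨι : ContDiffAt ℝ ω (fun z => Ψ (ι z)) 0 := by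
    refine ContDiffAt.comp (0 : Z) ?_ hι.contDiffAt
    rw [hι0]; exact hΨ
  refine ⟨fun z => ((Ψ (ι z)).1, (Ψ (ι z)).2.1), ?_, ?_, ?_⟩
  · exact hΨι.fst.prodMk hΨι.snd.fst
  · simp [hι0, hΨ0]
  · have hr' : ∀ᶠ z : Z in nhds 0, XI38.HH T e (Ψ (ι z)) = ι z := by
      have hc : Filter.Tendsto ι (nhds 0) (nhds 0) := by
        have := hι.continuous.tendsto (0 : Z)
        rwa [hι0] at this
      exact hc.eventually hr
    filter_upwards [hr'] with z hz
    have h3 : (Ψ (ι z)).2.2 = z := congrArg (fun q : E => q.2.2) hz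
    have h4 : Ψ (ι z) = ((Ψ (ι z)).1, (Ψ (ι z)).2.1, z) := by
      ext1
      · rfl
      · ext1
        · rfl
        · exact h3
    have h5 := congrArg (fun q : E => q.1) hz
    have h6 := congrArg (fun q : E => q.2.1) hz
    simp only [XI38.HH] at h5 h6
    rw [h4] at h5 h6
    exact ⟨h5, h6⟩

theorem inv_fun (Φ : E → E) (hΦ : ContDiffAt ℝ ω Φ 0) (h0 : Φ 0 = 0)
    (hinj : ∀ v, fderiv ℝ Φ 0 v = 0 → v = 0) :
    ∃ (Θ : E → E) (L : E ≃L[ℝ] E), Θ 0 = 0 ∧ ContDiffAt ℝ ω Θ 0 ∧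
      HasFDerivAt Θ (L : E →L[ℝ] E) 0 ∧ ∀ᶠ y in 𝓝 (0 : E), Φ (Θ y) = y := by
  have hinj' : Function.Injective ((fderiv ℝ Φ 0 : E →L[ℝ] E) : E →ₗ[ℝ] E) := by
    rw [← LinearMap.ker_eq_bot, LinearMap.ker_eq_bot']
    exact hinj
  let e : E ≃L[ℝ] E := (LinearEquiv.ofInjectiveEndo _ hinj').toContinuousLinearEquiv
  have he : ((e : E →L[ℝ] E)) = fderiv ℝ Φ 0 := ContinuousLinearMap.ext fun v => rfl
  have hn : (ω : WithTop ℕ∞) ≠ 0 := by simp
  have hd : HasFDerivAt Φ (e : E →L[ℝ] E) 0 := by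
    rw [he]
    exact (hΦ.differentiableAt hn).hasFDerivAt
  have hs : HasStrictFDerivAt Φ (e : E →L[ℝ] E) 0 := hΦ.hasStrictFDerivAt' hd hn
  refine ⟨hΦ.localInverse hd hn, e.symm, ?_, ?_, ?_, ?_⟩
  · have := hΦ.localInverse_apply_image hd hn
    rwa [h0] at this
  · have := hΦ.to_localInverse hd hn
    rwa [h0] at this
  · have := hs.to_localInverse.hasFDerivAt
    rwa [h0] at this
  · have := hs.eventually_right_inverse
    rwa [h0] at this

theorem sqrt_fun (u : E → ℂ) (hu : ContDiffAt ℝ ω u 0) (h1 : u 0 = 1) :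
    ∃ r : E → ℂ, ContDiffAt ℝ ω r 0 ∧ r 0 = 1 ∧ ∀ᶠ x in 𝓝 (0 : E), r x ^ 2 = u x := by
  refine ⟨fun x => Complex.exp (Complex.log (u x) / 2), ?_, ?_, ?_⟩
  · have hlog : ContDiffAt ℝ ω (fun x => Complex.log (u x)) 0 := by
      have h2 : ContDiffAt ℂ ω Complex.log (u 0) := by
        apply Complex.contDiffAt_log
        rw [h1]
        exact Complex.one_mem_slitPlane
      exact (h2.restrict_scalars ℝ).comp 0 hu
    have h3 : ContDiffAt ℝ ω (fun x => Complex.log (u x) / 2) 0 := by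
      simp only [div_eq_mul_inv]
      exact hlog.mul contDiffAt_const
    exact h3.cexp
  · simp [h1]
  · have hne : ∀ᶠ x in 𝓝 (0 : E), u x ≠ 0 := by
      apply hu.continuousAt.eventually_ne
      rw [h1]
      exact one_ne_zero
    filter_upwards [hne] with x hx
    rw [← Complex.exp_nat_mul]
    have : ((2 : ℕ) : ℂ) * (Complex.log (u x) / 2) = Complex.log (u x) := by
      push_cast
      ring
    rw [this, Complex.exp_log hx]

theorem normal_form (s1 s2 a b c : E → ℂ) (hs1 : ContDiffAt ℝ ω s1 0)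
    (hs2 : ContDiffAt ℝ ω s2 0) (ha : ContDiffAt ℝ ω a 0) (hb : ContDiffAt ℝ ω b 0)
    (hc : ContDiffAt ℝ ω c 0) (s10 : s1 0 = 0) (s20 : s2 0 = 0) (a0 : a 0 = 0) (c0 : c 0 = 0)
    (b0 : b 0 ≠ 0)
    (hinj : ∀ v : E, v.2.2 = 0 → fderiv ℝ s1 0 v = 0 → fderiv ℝ s2 0 v = 0 → v = 0) :
    ∃ (Θ : E → E) (L : E ≃L[ℝ] E), Θ 0 = 0 ∧ ContDiffAt ℝ ω Θ 0 ∧
      HasFDerivAt Θ (L : E →L[ℝ] E) 0 ∧ ∀ᶠ x in 𝓝 (0 : E), (Θ x).2.2 = x.2.2 ∧
        x.1 ^ 2 + x.2.1 ^ 2 = a (Θ x) * s1 (Θ x) ^ 2 + 2 * b (Θ x) * s1 (Θ x) * s2 (Θ x) +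
          c (Θ x) * s2 (Θ x) ^ 2 := by
  have hn : (ω : WithTop ℕ∞) ≠ 0 := by simp
  have hu : ContDiffAt ℝ ω (fun x => 1 - a x * c x / b x ^ 2) 0 := by
    simp only [div_eq_mul_inv]
    exact contDiffAt_const.sub ((ha.mul hc).mul ((hb.pow 2).inv (pow_ne_zero 2 b0)))
  obtain ⟨r, hr, r0, hr2⟩ := sqrt_fun _ hu (by simp [a0])
  -- `β = b + D`
  set β : E → ℂ := fun x => b x + b x * r x with hβdef
  have hβ : ContDiffAt ℝ ω β 0 := hb.add (hb.mul hr)
  have β0 : β 0 ≠ 0 := by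
    simp only [hβdef, r0, mul_one]
    intro h
    apply b0
    have : (2 : ℂ) * b 0 = 0 := by linear_combination h
    simpa using this
  set γ : E → ℂ := fun x => c x * (β x)⁻¹ with hγdef
  have hγ : ContDiffAt ℝ ω γ 0 := hc.mul (hβ.inv β0)
  have γ0 : γ 0 = 0 := by simp [hγdef, c0]
  set y1 : E → ℂ := fun x => s1 x + γ x * s2 x with hy1def
  set y2 : E → ℂ := fun x => a x * s1 x + β x * s2 x with hy2def
  have hy1 : ContDiffAt ℝ ω y1 0 := hs1.add (hγ.mul hs2)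
  have hy2 : ContDiffAt ℝ ω y2 0 := (ha.mul hs1).add (hβ.mul hs2)
  set Φ : E → E := fun x => ((y1 x + y2 x) * (1 / 2), (y1 x - y2 x) * (1 / (2 * I)), x.2.2)
    with hΦdef
  have hΦ : ContDiffAt ℝ ω Φ 0 := by
    refine ContDiffAt.prodMk ((hy1.add hy2).mul contDiffAt_const)
      (ContDiffAt.prodMk ((hy1.sub hy2).mul contDiffAt_const) ?_)
    exact (contDiff_snd.comp contDiff_snd).contDiffAt
  have Φ0 : Φ 0 = 0 := by
    simp [hΦdef, hy1def, hy2def, s10, s20]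
  -- derivatives
  have ds1 := (hs1.differentiableAt hn).hasFDerivAt
  have ds2 := (hs2.differentiableAt hn).hasFDerivAt
  have da := (ha.differentiableAt hn).hasFDerivAt
  have dβ := (hβ.differentiableAt hn).hasFDerivAt
  have dγ := (hγ.differentiableAt hn).hasFDerivAt
  have dy1 : HasFDerivAt y1 (fderiv ℝ s1 0) 0 := by
    have h := ds1.add (dγ.mul ds2)
    have he : fderiv ℝ s1 0 + (γ 0 • fderiv ℝ s2 0 + s2 0 • fderiv ℝ γ 0) = fderiv ℝ s1 0 := by
      refine ContinuousLinearMap.ext fun v => ?_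
      simp [γ0, s20]
    rw [he] at h
    exact h
  have dy2 : HasFDerivAt y2 (β 0 • fderiv ℝ s2 0) 0 := by
    have h := (da.mul ds1).add (dβ.mul ds2)
    have he : (a 0 • fderiv ℝ s1 0 + s1 0 • fderiv ℝ a 0) +
        (β 0 • fderiv ℝ s2 0 + s2 0 • fderiv ℝ β 0) = β 0 • fderiv ℝ s2 0 := by
      refine ContinuousLinearMap.ext fun v => ?_
      simp [a0, s10, s20]
    rw [he] at h
    exact h
  have dΦ := (hΦ.differentiableAt hn).hasFDerivAt
  have hinjΦ : ∀ v, fderiv ℝ Φ 0 v = 0 → v = 0 := by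
    intro v hv
    have d1 : HasFDerivAt (fun x => (Φ x).1)
        ((ContinuousLinearMap.fst ℝ ℂ (ℂ × Z)).comp (fderiv ℝ Φ 0)) 0 :=
      (ContinuousLinearMap.fst ℝ ℂ (ℂ × Z)).hasFDerivAt.comp 0 dΦ
    have d2 : HasFDerivAt (fun x => (Φ x).2.1)
        ((ContinuousLinearMap.fst ℝ ℂ Z).comp
          ((ContinuousLinearMap.snd ℝ ℂ (ℂ × Z)).comp (fderiv ℝ Φ 0))) 0 :=
      (ContinuousLinearMap.fst ℝ ℂ Z).hasFDerivAt.comp 0
        ((ContinuousLinearMap.snd ℝ ℂ (ℂ × Z)).hasFDerivAt.comp 0 dΦ)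
    have d3 := HasFDerivAt.comp (0 : E) (((ContinuousLinearMap.snd ℝ ℂ Z).comp
        (ContinuousLinearMap.snd ℝ ℂ (ℂ × Z))).hasFDerivAt (x := Φ 0)) dΦ
    have e1 : HasFDerivAt (fun x => (Φ x).1)
        ((1 / 2 : ℂ) • (fderiv ℝ s1 0 + β 0 • fderiv ℝ s2 0)) 0 :=
      (dy1.add dy2).mul_const (1 / 2 : ℂ)
    have e2 : HasFDerivAt (fun x => (Φ x).2.1)
        ((1 / (2 * I) : ℂ) • (fderiv ℝ s1 0 - β 0 • fderiv ℝ s2 0)) 0 :=
      (dy1.sub dy2).mul_const (1 / (2 * I) : ℂ)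
    have e3 : HasFDerivAt (((ContinuousLinearMap.snd ℝ ℂ Z).comp
        (ContinuousLinearMap.snd ℝ ℂ (ℂ × Z))) ∘ Φ)
        ((ContinuousLinearMap.snd ℝ ℂ Z).comp (ContinuousLinearMap.snd ℝ ℂ (ℂ × Z))) 0 :=
      ((ContinuousLinearMap.snd ℝ ℂ Z).comp
        (ContinuousLinearMap.snd ℝ ℂ (ℂ × Z))).hasFDerivAt
    have f1 := congrArg (fun l : E →L[ℝ] ℂ => l v) (d1.unique e1)
    have f2 := congrArg (fun l : E →L[ℝ] ℂ => l v) (d2.unique e2)
    have f3 := congrArg (fun l : E →L[ℝ] Z => l v) (d3.unique e3)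
    simp only [ContinuousLinearMap.comp_apply, hv, map_zero,
      ContinuousLinearMap.coe_snd', _root_.smul_apply,
      _root_.add_apply, _root_.sub_apply, smul_eq_mul] at f1 f2 f3
    have g1 : fderiv ℝ s1 0 v + β 0 * fderiv ℝ s2 0 v = 0 := by
      have := f1.symm
      rcases mul_eq_zero.1 this with h | h
      · norm_num at h
      · exact h
    have g2 : fderiv ℝ s1 0 v - β 0 * fderiv ℝ s2 0 v = 0 := by
      have := f2.symm
      rcases mul_eq_zero.1 this with h | h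
      · simp at h
      · exact h
    have k1 : fderiv ℝ s1 0 v = 0 := by linear_combination (g1 + g2) / 2
    have k2 : fderiv ℝ s2 0 v = 0 := by
      have : β 0 * fderiv ℝ s2 0 v = 0 := by linear_combination (g1 - g2) / 2
      exact (mul_eq_zero.1 this).resolve_left β0
    exact hinj v f3.symm k1 k2
  obtain ⟨Θ, L, Θ0, hΘ, hL, hev⟩ := inv_fun Φ hΦ Φ0 hinjΦ
  refine ⟨Θ, L, Θ0, hΘ, hL, ?_⟩
  have htend : Tendsto Θ (𝓝 0) (𝓝 0) := by
    have := hΘ.continuousAt.tendsto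
    rwa [Θ0] at this
  have hβne : ∀ᶠ x in 𝓝 (0 : E), β (Θ x) ≠ 0 :=
    htend.eventually (hβ.continuousAt.eventually_ne β0)
  have hbne : ∀ᶠ x in 𝓝 (0 : E), b (Θ x) ≠ 0 :=
    htend.eventually (hb.continuousAt.eventually_ne b0)
  have hr2' := htend.eventually hr2
  filter_upwards [hev, hβne, hbne, hr2'] with x hx h1 h2 h3
  have x1 : (y1 (Θ x) + y2 (Θ x)) * (1 / 2) = x.1 := congrArg Prod.fst hx
  have x2 : (y1 (Θ x) - y2 (Θ x)) * (1 / (2 * I)) = x.2.1 :=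
    congrArg (fun p : E => p.2.1) hx
  have x3 : (Θ x).2.2 = x.2.2 := by
    have : (Φ (Θ x)).2.2 = x.2.2 := by rw [hx]
    exact this
  refine ⟨x3, ?_⟩
  have hI : (1 / (2 * I)) ^ 2 = (-1 / 4 : ℂ) := by
    rw [div_pow, mul_pow, I_sq]
    norm_num
  have h4 : x.1 ^ 2 + x.2.1 ^ 2 = y1 (Θ x) * y2 (Θ x) := by
    rw [← x1, ← x2, mul_pow (y1 (Θ x) - y2 (Θ x)), hI]
    ring
  rw [h4]
  generalize Θ x = q at *
  have h5 : b q ^ 2 * r q ^ 2 = b q ^ 2 - a q * c q := by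
    rw [h3]
    field_simp
  simp only [hy1def, hy2def, hγdef]
  have h6 : a q * (c q * (β q)⁻¹) = b q - b q * r q := by
    rw [← mul_assoc, ← div_eq_mul_inv, div_eq_iff h1]
    simp only [hβdef]
    linear_combination h5
  have h7 : c q * (β q)⁻¹ * β q = c q := by
    rw [mul_assoc, inv_mul_cancel₀ h1, mul_one]
  have h8 : β q = b q + b q * r q := rfl
  linear_combination s1 q * s2 q * h6 + s2 q ^ 2 * h7 + s1 q * s2 q * h8

/-- `T x u v` is smooth in `x`. -/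
theorem contDiff_T1 (T : Tri) (u v : V) : ContDiff ℝ ω (fun x : V => T x u v) := by
  let l : V →ₗ[ℂ] ℂ :=
    { toFun := fun x => T x u v
      map_add' := fun x y => by simp
      map_smul' := fun c x => by simp }
  exact (l.toContinuousLinearMap.restrictScalars ℝ).contDiff

theorem contDiff_chartVec (e : Fin 6 → V) : ContDiff ℝ ω (chartVec e) := by
  unfold chartVec
  fun_prop

theorem morse2 : G_MORSE2 := by
  have hX := xiA
  intro T e hT h00 h011 h022 h012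
  obtain ⟨ξ, hξ, ξ0, hξe⟩ := hX T e hT h00 h011 h022 h012
  have hn : (ω : WithTop ℕ∞) ≠ 0 := by simp
  -- the vector `w_z`
  let P : Z → E := fun z => ((ξ z).1, (ξ z).2, z)
  have hP : ContDiffAt ℝ ω P 0 := by
    refine ContDiffAt.prodMk ?_ (ContDiffAt.prodMk ?_ contDiffAt_id)
    · exact contDiff_fst.contDiffAt.comp 0 hξ
    · exact contDiff_snd.contDiffAt.comp 0 hξ
  have P0 : P 0 = 0 := by
    simp [P, ξ0]
  have hw00 : chartVec e 0 = e 0 := by
    simp [chartVec]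
  have hw0 : chartVec e (P 0) = e 0 := by
    rw [P0, hw00]
  have hpr : ContDiffAt ℝ ω (fun p : E => p.2.2) 0 :=
    (contDiff_snd.comp contDiff_snd).contDiffAt
  have hPp : ContDiffAt ℝ ω (fun p : E => P p.2.2) 0 :=
    ContDiffAt.comp (0 : E) (f := fun p : E => p.2.2) (g := P) hP hpr
  have hTw : ∀ u v : V, ContDiffAt ℝ ω (fun p : E => T (chartVec e (P p.2.2)) u v) 0 := by
    intro u v
    exact ((contDiff_T1 T u v).comp (contDiff_chartVec e)).contDiffAt.comp 0 hPp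
  have hs1 : ContDiffAt ℝ ω (fun p : E => p.1 - (P p.2.2).1) 0 :=
    contDiff_fst.contDiffAt.sub (contDiff_fst.contDiffAt.comp 0 hPp)
  have hs2 : ContDiffAt ℝ ω (fun p : E => p.2.1 - (P p.2.2).2.1) 0 :=
    (contDiff_fst.comp contDiff_snd).contDiffAt.sub
      ((contDiff_fst.comp contDiff_snd).contDiffAt.comp 0 hPp)
  have ha : ContDiffAt ℝ ω (fun p : E => 3 * T (chartVec e (P p.2.2)) (e 1) (e 1) +
      (T (e 1) (e 1) (e 1) * (p.1 - (P p.2.2).1) +
        3 * T (e 1) (e 1) (e 2) * (p.2.1 - (P p.2.2).2.1))) 0 :=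
    (contDiffAt_const.mul (hTw _ _)).add ((contDiffAt_const.mul hs1).add
      (contDiffAt_const.mul hs2))
  have hc : ContDiffAt ℝ ω (fun p : E => 3 * T (chartVec e (P p.2.2)) (e 2) (e 2) +
      (3 * T (e 1) (e 2) (e 2) * (p.1 - (P p.2.2).1) +
        T (e 2) (e 2) (e 2) * (p.2.1 - (P p.2.2).2.1))) 0 :=
    (contDiffAt_const.mul (hTw _ _)).add ((contDiffAt_const.mul hs1).add
      (contDiffAt_const.mul hs2))
  have hb : ContDiffAt ℝ ω (fun p : E => 3 * T (chartVec e (P p.2.2)) (e 1) (e 2)) 0 :=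
    contDiffAt_const.mul (hTw _ _)
  have P0' : P (0 : E).2.2 = 0 := P0
  have hw0' : chartVec e (P (0 : E).2.2) = e 0 := hw0
  obtain ⟨Θ, L, Θ0, hΘ, hL, hev⟩ := normal_form _ _ _ _ _ hs1 hs2 ha hb hc
    (by simp [P0]) (by simp [P0]) (by simp only [P0', hw00, h011]; simp)
    (by simp only [P0', hw00, h022]; simp) (by
      simp only [hw0']
      exact mul_ne_zero three_ne_zero h012) (by
      intro v hv h1 h2
      have dP := (hP.differentiableAt hn).hasFDerivAt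
      have dPp : HasFDerivAt (fun p : E => P p.2.2) ((fderiv ℝ P 0).comp
          ((ContinuousLinearMap.snd ℝ ℂ Z).comp (ContinuousLinearMap.snd ℝ ℂ (ℂ × Z)))) 0 :=
        HasFDerivAt.comp (0 : E) (f := fun p : E => p.2.2) (g := P) dP
          ((ContinuousLinearMap.snd ℝ ℂ Z).comp
            (ContinuousLinearMap.snd ℝ ℂ (ℂ × Z))).hasFDerivAt
      have k1 : HasFDerivAt (fun p : E => p.1 - (P p.2.2).1)
          (ContinuousLinearMap.fst ℝ ℂ (ℂ × Z) - (ContinuousLinearMap.fst ℝ ℂ (ℂ × Z)).comp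
            ((fderiv ℝ P 0).comp
          ((ContinuousLinearMap.snd ℝ ℂ Z).comp (ContinuousLinearMap.snd ℝ ℂ (ℂ × Z))))) 0 :=
        (ContinuousLinearMap.fst ℝ ℂ (ℂ × Z)).hasFDerivAt.sub
          ((ContinuousLinearMap.fst ℝ ℂ (ℂ × Z)).hasFDerivAt.comp 0 dPp)
      have k2 : HasFDerivAt (fun p : E => p.2.1 - (P p.2.2).2.1)
          (((ContinuousLinearMap.fst ℝ ℂ Z).comp (ContinuousLinearMap.snd ℝ ℂ (ℂ × Z))) -
            ((ContinuousLinearMap.fst ℝ ℂ Z).comp (ContinuousLinearMap.snd ℝ ℂ (ℂ × Z))).comp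
            ((fderiv ℝ P 0).comp
          ((ContinuousLinearMap.snd ℝ ℂ Z).comp (ContinuousLinearMap.snd ℝ ℂ (ℂ × Z))))) 0 :=
        ((ContinuousLinearMap.fst ℝ ℂ Z).comp
          (ContinuousLinearMap.snd ℝ ℂ (ℂ × Z))).hasFDerivAt.sub
          (((ContinuousLinearMap.fst ℝ ℂ Z).comp
            (ContinuousLinearMap.snd ℝ ℂ (ℂ × Z))).hasFDerivAt.comp 0 dPp)
      rw [k1.fderiv] at h1
      rw [k2.fderiv] at h2
      simp only [_root_.sub_apply, ContinuousLinearMap.comp_apply,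
        ContinuousLinearMap.coe_snd', ContinuousLinearMap.coe_fst', hv, map_zero] at h1 h2
      have h1' : v.1 = 0 := by simpa using h1
      have h2' : v.2.1 = 0 := by simpa using h2
      exact Prod.ext h1' (Prod.ext h2' hv))
  -- continuity
  obtain ⟨U, hU, hPU⟩ := contDiffAt_zero.1 (hP.of_le zero_le)
  obtain ⟨h, hcont, hheq⟩ := Pool.Agent.Helper86.CF.cutoff (fun z => chart T e (P z)) U hU
    ((Pool.Agent.Helper86.CF.continuous_chart T e).comp_continuousOn hPU)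
  refine ⟨h, Θ, L, ξ, hcont, Θ0, (hΘ.eventually (by simp)).mono fun x hx => hx.of_le (by simp), hL, ?_, hξ.continuousAt, ξ0, ?_⟩
  · have htend : Tendsto (fun x : E => (Θ x).2.2) (𝓝 0) (𝓝 0) := by
      have h1 := hΘ.continuousAt.tendsto
      rw [Θ0] at h1
      have h2 : Tendsto (fun p : E => p.2.2) (𝓝 0) (𝓝 0) := by
        have : Continuous (fun p : E => p.2.2) := continuous_snd.comp continuous_snd
        exact this.tendsto 0
      exact h2.comp h1
    filter_upwards [hev, htend.eventually hheq, htend.eventually hξe] with x hx h1 h2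
    obtain ⟨h3, h4⟩ := hx
    rw [h4, ← h3, h1]
    have hexp := Pool.Agent.Helper86.CF.T_expand T hT (chartVec e (P (Θ x).2.2)) (e 1) (e 2)
      ((Θ x).1 - (P (Θ x).2.2).1) ((Θ x).2.1 - (P (Θ x).2.2).2.1) h2.1 h2.2
    have hvec : chartVec e (Θ x) = chartVec e (P (Θ x).2.2) +
        ((Θ x).1 - (P (Θ x).2.2).1) • e 1 + ((Θ x).2.1 - (P (Θ x).2.2).2.1) • e 2 := by
      simp only [chartVec, P]
      module
    unfold chart
    rw [hvec, hexp]
    ring
  · filter_upwards [hheq, hξe] with z h1 h2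
    exact ⟨h1, h2⟩



end CF55.An
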