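import Pool.Agent.Helper55.CF.Final3
import Pool.Agent.Helper55.CF.Low
import Pool.Agent.Helper55.CF.Class
import Pool.Agent.Helper55.CF.A1
import Pool.Agent.Helper55.CF.A2x
import Pool.Agent.Helper55.CF.MorseA
import Pool.Agent.Helper14.CF.Ode
import Pool.Agent.Helper15.CF.TYPE1
import Pool.Agent.Helper16.CF.CJ
import Pool.Agent.Helper18.CF.NZ
import Pool.Agent.Helper19.CF.TYPE23
import Pool.Agent.Helper27.CF.SER
import Pool.Agent.Helper31.CF.GAUSS
import Pool.Agent.Helper31.CF.LB1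
import Pool.Agent.Helper32.CF.A04
import Pool.Agent.Helper32.CF.NORM
import Pool.Agent.Helper37.CF.D1
import Pool.Agent.Helper37.CF.NSP
import Pool.Agent.Helper39.CF.R1b
import Pool.Agent.Helper42.CF.NODE
import Pool.Agent.Helper45.CF.NS
import Pool.Agent.Helper5.CF.CS
import Pool.Agent.Helper50.CF.LB2
import Pool.Agent.Helper51.CF.Core
import Pool.Agent.Helper57.CF.BETA
import Pool.Agent.Helper57.CF.POLAR
import Pool.Agent.Helper6.CF.EXTRA
import Pool.Agent.Helper6.CF.INT5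
import Pool.Agent.Helper61.CF.CRIT
import Pool.Agent.Helper62.CF.CACT
import Pool.Agent.Helper65.CF.CHG
import Pool.Agent.Helper68.CF.CNT
import Pool.Agent.Helper69.CF.TRANSF
import Pool.Agent.Helper70.CF.R2
import Pool.Agent.Helper77.CF.Key
import Pool.Agent.Helper78.CF.CC
import Pool.Agent.Helper8.CF.D2
import Pool.Agent.Helper80.CF.SVD
import Pool.Agent.Helper82.CF.AVOID
import Pool.Agent.Helper82.CF.TK
import Pool.Agent.Helper83.CF.Link
import Pool.Agent.Helper83.CF.N1a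
import Pool.Agent.Helper89.CF.MOM
import Pool.Agent.Helper93.CF.R1a
import Pool.Agent.Helper96.CF.N1
import Pool.Agent.Helper97.CF.CUBE

open CF55

namespace CF55

theorem allOf (hADJ : G_ADJ) : FinalStatement := by
  have hMOM := Helper89CF.stmtMOM hADJ Pool.Agent.Helper6.CF.stmtEXTRA
  have hCORE : G_CORE := stmtCORE hMOM Pool.Agent.Helper27.CFSer.stmtSER
    Pool.Agent.Helper14.CF.stmtODE
  have hTR := Pool.Agent.Helper69.CF.stmtTRANSF
  have hCHG : G_CHG2 := Pool.Agent.Helper65.CF.chg'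
  have hNSP := H37.stmtNSP
  have hGA : G_GAUSS := stmtGAUSS
  have hN1a := Pool.Agent.Helper83.CF.stmtN1a hNSP
  have hN1 := Pool.Agent.Helper96.CF.stmtN1 hN1a hGA
  have hLINK := Pool.Agent.Helper83.CF.stmtLINK hGA
  have hK2 := Pool.Agent.Helper77.CF.stmtKEY2 hLINK hGA
  have hK1 := Pool.Agent.Helper77.CF.stmtKEY1 hLINK hGA
  have hD1 := H37.stmtD1 (stmtD1a hNSP) hGA
  have hD2 := Pool.Agent.Helper8.CF.stmtD2 (stmtD2a hNSP) Pool.Agent.Helper6.CF.stmtINT5 hGA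
  have hLB2 := Helper50CF.stmtLB2
  have hLB5 := Helper50CF.stmtLB5
  have hLB1 : G_LB1 := stmtLB1
  have hT1 : G_TYPE1 := stmtTYPE1 hK2 hN1 hLB1
  have hT2 := Pool.Agent.Helper19.CF.stmtTYPE2 hK2 hN1 hD1 hLB2
  have hT3 := Pool.Agent.Helper19.CF.stmtTYPE3 hK1 hD1 hLB2
  have hT5 := Pool.Agent.Helper19.CF.stmtTYPE5 hK2 hD2 hLB5
  have hA1 : G_A1 := stmtA1 An.morse2 hCHG Pool.Agent.Helper61.CF.stmtCRIT hT1
  have hA2 : G_A2 := H74CF.stmtA2x hCHG hT2
  have hA3 : G_A3 := H74CF.stmtA3 hT3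
  have hA5 : G_A5 := H74CF.stmtA5 hT5
  have hR2 : G_R2 := stmtR2
  have hCU : G_CUBE := stmtCUBE
  have hTK := Pool.Agent.Helper82.CF.stmtTK hCU
  have hNODE := Pool.Agent.Helper42.CF.stmtNODE PkCNT.stmtCNT Pool.Agent.Helper82.CF.stmtAVOID
    Pool.Agent.Helper18.CF.stmtNZ
  have hLOW : G_LOW := stmtLOW hR2 hCU hTK stmtR1a stmtR1b stmtBETA hNODE Helper78CF.stmtCC
    stmtNORM
  have hCLASS : G_CLASS := stmtCLASS hR2 H62.stmtCA H62.stmtCT Pool.Agent.Helper5.CF.stmtCS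
    stmtCJ3 stmtCJ2
  exact final_all hCORE hTR stmtPOLAR (stmtHM stmtSVD) stmtSORT hCLASS hLOW stmtA0 hA1 hA2 hA3
    stmtA4 hA5

end CF55
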