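import Mathlib

/-!
# Definitions for MP_b612a6_ag

Cubic fourfolds with 1-Du Bois singularities (minimal exponent at least two at every point)
and GIT semistability.
-/

noncomputable section
namespace CF55

/-- The Weyl algebra `ℂ⟨x₁,…,xₙ,∂₁,…,∂ₙ⟩`, as the algebra of linear operators on
`ℂ[x₁,…,xₙ]` generated by the multiplications by the variables and the partial derivatives. -/
def weyl (n : ℕ) : Subalgebra ℂ (Module.End ℂ (MvPolynomial (Fin n) ℂ)) :=
  Algebra.adjoin ℂ
    ((Set.range fun i : Fin n =>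
        LinearMap.mulLeft ℂ (MvPolynomial.X i : MvPolynomial (Fin n) ℂ)) ∪
      Set.range fun i : Fin n =>
        ((MvPolynomial.pderiv i : Derivation ℂ (MvPolynomial (Fin n) ℂ) (MvPolynomial (Fin n) ℂ)) :
          MvPolynomial (Fin n) ℂ →ₗ[ℂ] MvPolynomial (Fin n) ℂ))

/-- `b` satisfies a local Bernstein–Sato functional equation for `f` at the origin:
`u · b(s) · f ^ s = P(s) f ^ (s + 1)` with `u` a polynomial not vanishing at the origin and
`P(s) = ∑ s ^ j P_j`, `P_j` in the Weyl algebra.  (Both sides are `f ^ s` times polynomials in `s`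
over `ℂ[x, 1/f]`, so the identity holds if and only if it holds for all `s = k ∈ ℕ`, which is the
form written here.)  Inverting the functions `u` with `u(0) ≠ 0` gives the local ring at the
origin, so the polynomials `b` with this property form the ideal of `ℂ[s]` generated by the local
Bernstein–Sato polynomial `b_{f,0}(s)` of `f` at the origin. -/
def FunctionalEquation {n : ℕ} (f : MvPolynomial (Fin n) ℂ) (b : Polynomial ℂ) : Prop :=
  ∃ u : MvPolynomial (Fin n) ℂ, MvPolynomial.eval 0 u ≠ 0 ∧
    ∃ (m : ℕ) (P : ℕ → Module.End ℂ (MvPolynomial (Fin n) ℂ)), (∀ j, P j ∈ weyl n) ∧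
      ∀ k : ℕ, MvPolynomial.C (b.eval (k : ℂ)) * u * f ^ k =
        ∑ j ∈ Finset.range m, (k : ℂ) ^ j • P j (f ^ (k + 1))

/-- The minimal exponent of `f` at the origin is at least `α` : all roots of the reduced local
Bernstein–Sato polynomial `b_{f,0}(s) / (s + 1)` are `≤ -α`; equivalently, `b_{f,0}` divides
`(s + 1) b(s)` for some nonzero polynomial `b` all of whose roots have real part `≤ -α`. -/
def MinExpGE {n : ℕ} (α : ℝ) (f : MvPolynomial (Fin n) ℂ) : Prop :=
  ∃ b : Polynomial ℂ, b ≠ 0 ∧ (∀ ρ : ℂ, b.IsRoot ρ → ρ.re ≤ -α) ∧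
    FunctionalEquation f ((Polynomial.X + 1) * b)

/-- The linear substitution `(F ∘ g)(x) = F (g x)`. -/
def subst (g : Matrix (Fin 6) (Fin 6) ℂ) (F : MvPolynomial (Fin 6) ℂ) : MvPolynomial (Fin 6) ℂ :=
  MvPolynomial.aeval (fun i => ∑ j, MvPolynomial.C (g i j) * MvPolynomial.X j) F

/-- The dehomogenisation `F(1, x₁, …, x₅)`: the local equation of `F = 0` in the standard affine
chart around the point `(1 : 0 : … : 0)`. -/
def affineChart (F : MvPolynomial (Fin 6) ℂ) : MvPolynomial (Fin 5) ℂ :=
  MvPolynomial.aeval (Fin.cons 1 MvPolynomial.X : Fin 6 → MvPolynomial (Fin 5) ℂ) F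

/-- The hypersurface `F = 0` in `ℙ⁵` has 1-Du Bois singularities: its minimal exponent is at
least `2` at every point of the hypersurface, in every linear coordinate system. -/
def OneDuBois (F : MvPolynomial (Fin 6) ℂ) : Prop :=
  ∀ g : GL (Fin 6) ℂ, MvPolynomial.eval 0 (affineChart (subst g.1 F)) = 0 →
    MinExpGE 2 (affineChart (subst g.1 F))

/-- `F` is GIT semistable for `SL₆`: zero is not in the closure of the `SL₆(ℂ)`-orbit of `F`
(the topology is that of the coefficients). -/
def GITSemistable (F : MvPolynomial (Fin 6) ℂ) : Prop :=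
  (0 : (Fin 6 →₀ ℕ) → ℂ) ∉ closure (Set.range
    fun g : Matrix.SpecialLinearGroup (Fin 6) ℂ => fun d => MvPolynomial.coeff d (subst g.1 F))

end CF55
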