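import Pool.Agent.Helper55.CF.Goals

open MeasureTheory Complex
open scoped ContDiff ComplexConjugate

noncomputable section
namespace CF55

theorem eval_subst (g : Matrix (Fin 6) (Fin 6) ℂ) (F : MvPolynomial (Fin 6) ℂ) (v : V) :
    MvPolynomial.eval v (subst g F) = MvPolynomial.eval (g.mulVec v) F := by
  unfold subst
  rw [MvPolynomial.aeval_def, MvPolynomial.eval_eval₂]
  rw [MvPolynomial.eval, MvPolynomial.coe_eval₂Hom]
  congr 1
  · ext; simp
  · funext i
    simp [Matrix.mulVec, dotProduct]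

theorem eval_affineChart (F : MvPolynomial (Fin 6) ℂ) (x : X5) :
    MvPolynomial.eval x (affineChart F) = MvPolynomial.eval (Fin.cons 1 x : V) F := by
  unfold affineChart
  rw [MvPolynomial.aeval_def, MvPolynomial.eval_eval₂]
  rw [MvPolynomial.eval, MvPolynomial.coe_eval₂Hom]
  congr 1
  · ext; simp
  · funext i
    refine Fin.cases ?_ ?_ i <;> simp

/-- a frame gives an invertible matrix -/
theorem exists_gl (e : Fin 6 → V) (he : LinearIndependent ℂ e) :
    ∃ g : GL (Fin 6) ℂ, ∀ v : V, g.1.mulVec v = ∑ j, v j • e j := by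
  have h1 : IsUnit (Matrix.of fun i j => e j i : Matrix (Fin 6) (Fin 6) ℂ) := by
    rw [← Matrix.linearIndependent_cols_iff_isUnit]
    exact he
  refine ⟨h1.unit, ?_⟩
  intro v
  funext i
  simp [Matrix.mulVec, dotProduct, IsUnit.unit_spec, mul_comm]

theorem chart_good (hCORE : G_CORE) (hTR : G_TRANSF) (F : MvPolynomial (Fin 6) ℂ) (T : Tri)
    (hFT : ∀ v : V, MvPolynomial.eval v F = T v v v) (hF : OneDuBois F)
    (e : Fin 6 → V) (he : LinearIndependent ℂ e) (h0 : T (e 0) (e 0) (e 0) = 0) :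
    GoodOn (chart T e) := by
  obtain ⟨g, hg⟩ := exists_gl e he
  have hval : ∀ x : X5, MvPolynomial.eval x (affineChart (subst g.1 F)) =
      T (∑ j, (Fin.cons 1 x : V) j • e j) (∑ j, (Fin.cons 1 x : V) j • e j)
        (∑ j, (Fin.cons 1 x : V) j • e j) := by
    intro x
    rw [eval_affineChart, eval_subst, hg, hFT]
  have h1 : MinExpGE 2 (affineChart (subst g.1 F)) := by
    apply hF
    rw [hval]
    have : (∑ j, (Fin.cons 1 (0 : X5) : V) j • e j) = e 0 := by
      rw [Fin.sum_univ_succ]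
      simp
    rw [this, h0]
  have h2 := hTR _ (hCORE _ h1)
  convert h2 using 2 with q
  rw [hval]
  have : (∑ j, (Fin.cons 1 (Fin.cons q.1 (Fin.cons q.2.1 q.2.2) : X5) : V) j • e j) =
      chartVec e q := by
    rw [Fin.sum_univ_six]
    unfold chartVec
    simp only [Fin.cons_zero, one_smul]
    rfl
  rw [this]
  rfl

theorem not_bad (hCORE : G_CORE) (hTR : G_TRANSF) (h0 : G_A0) (h1 : G_A1) (h2 : G_A2) (h3 : G_A3)
    (h4 : G_A4) (h5 : G_A5) (F : MvPolynomial (Fin 6) ℂ) (T : Tri) (hS : Sym T)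
    (hFT : ∀ v : V, MvPolynomial.eval v F = T v v v) (hF : OneDuBois F) : ¬ Bad T := by
  intro hb
  rcases hb with hb | ⟨e, w, d, hb⟩ | ⟨e, hb⟩ | ⟨e, hb⟩ | ⟨e, hb⟩ | ⟨e, κ, hb⟩
  · have := chart_good hCORE hTR F T hFT hF (fun i => Pi.single i 1)
      (Pi.linearIndependent_single_one (Fin 6) ℂ) (by rw [hb]; simp)
    apply h0
    have h : chart T (fun i => Pi.single i 1) = fun _ => 0 := by
      funext q; unfold chart; rw [hb]; simp
    rwa [h] at this
  · exact h1 T e w d hS hb (chart_good hCORE hTR F T hFT hF e hb.li (hb.t00 0))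
  · exact h2 T e hS hb (chart_good hCORE hTR F T hFT hF e hb.li (hb.t00 0))
  · exact h3 T e hS hb (chart_good hCORE hTR F T hFT hF e hb.li (hb.t0 _ _))
  · exact h4 T e hS hb (chart_good hCORE hTR F T hFT hF e hb.li (hb.t 0 0 0 (by decide)))
  · exact h5 T e κ hS hb (chart_good hCORE hTR F T hFT hF e hb.li (hb.t0 _ _))

end CF55
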