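import Pool.Agent.Helper55.CF.Final

open MeasureTheory Complex
open scoped ContDiff ComplexConjugate

noncomputable section
namespace CF55

theorem subst_hom (g : Matrix (Fin 6) (Fin 6) ℂ) (F : MvPolynomial (Fin 6) ℂ)
    (hF : F.IsHomogeneous 3) : (subst g F).IsHomogeneous 3 := by
  unfold subst
  have h := hF.aeval (fun i => ∑ j, MvPolynomial.C (g i j) * MvPolynomial.X j)
    (fun i => (MvPolynomial.IsHomogeneous.sum _ _ 1 (fun j _ => by
      simpa using (MvPolynomial.isHomogeneous_C (Fin 6) (g i j)).mul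
        (MvPolynomial.isHomogeneous_X ℂ j))))
  simpa using h

theorem eval_fin (G : MvPolynomial (Fin 6) ℂ) (hG : G.IsHomogeneous 3) (v : V) :
    MvPolynomial.eval v G = ∑ d ∈ Finset.finsuppAntidiag (Finset.univ : Finset (Fin 6)) 3,
      MvPolynomial.coeff d G * ∏ i, v i ^ d i := by
  rw [MvPolynomial.eval_eq']
  apply Finset.sum_subset
  · intro d hd
    rw [Finset.mem_finsuppAntidiag]
    refine ⟨?_, Finset.subset_univ _⟩
    have := hG (MvPolynomial.mem_support_iff.1 hd)
    rw [← this, Finsupp.weight_apply, Finsupp.sum_fintype]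
    · simp
    · simp
  · intro d _ hd
    rw [MvPolynomial.notMem_support_iff.1 hd, zero_mul]

theorem polar3 (T : Tri) (hS : Sym T) (x y z : V) :
    T x y z = (T (x + y + z) (x + y + z) (x + y + z) - T (x + y) (x + y) (x + y) -
      T (y + z) (y + z) (y + z) - T (x + z) (x + z) (x + z) + T x x x + T y y y + T z z z) / 6 := by
  have h0 : T z y x = T x y z := by rw [hS.s12, hS.s23, hS.s12]
  simp only [map_add, LinearMap.add_apply]
  rw [hS.s12 y x x, hS.s23 x y x, hS.s12 z x x, hS.s23 x z x, hS.s12 y x y,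
    hS.s23 y y x, hS.s12 y x y, hS.s12 z y y, hS.s23 y z y, hS.s23 z z y, hS.s12 z y z,
    hS.s23 z z x, hS.s12 z x z, hS.s12 y x z, hS.s12 z x y, hS.s23 x z y, hS.s12 y z x]
  simp only [h0]
  ring

theorem final_closure (hHM : G_HM) (hSORT : G_SORT) (hCLASS : G_CLASS) (hLOW : G_LOW)
    (F : MvPolynomial (Fin 6) ℂ) (hF : F.IsHomogeneous 3) (T : Tri) (hS : Sym T)
    (hFT : ∀ v : V, MvPolynomial.eval v F = T v v v) (hnb : ¬ Bad T) : GITSemistable F := by
  intro hcl
  rw [mem_closure_iff_seq_limit] at hcl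
  obtain ⟨s, hs, hlim⟩ := hcl
  choose g hg using hs
  have hcoef : ∀ d, Filter.Tendsto (fun n => MvPolynomial.coeff d (subst (g n).1 F))
      Filter.atTop (nhds 0) := by
    intro d
    have := (tendsto_pi_nhds.1 hlim) d
    convert this using 2 with n
    · rw [← hg n]
    · rfl
  have hev : ∀ v : V, Filter.Tendsto (fun n => T ((g n).1.mulVec v) ((g n).1.mulVec v)
      ((g n).1.mulVec v)) Filter.atTop (nhds 0) := by
    intro v
    have h1 : ∀ n, T ((g n).1.mulVec v) ((g n).1.mulVec v) ((g n).1.mulVec v) =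
        ∑ d ∈ Finset.finsuppAntidiag (Finset.univ : Finset (Fin 6)) 3,
          MvPolynomial.coeff d (subst (g n).1 F) * ∏ i, v i ^ d i := by
      intro n
      rw [← hFT, ← eval_subst, eval_fin _ (subst_hom _ _ hF)]
    simp_rw [h1]
    have h2 : (0 : ℂ) = ∑ d ∈ Finset.finsuppAntidiag (Finset.univ : Finset (Fin 6)) 3,
        0 * ∏ i, v i ^ d i := by simp
    rw [h2]
    apply tendsto_finsetSum
    intro d _
    exact (hcoef d).mul_const _
  obtain ⟨e, he, l, hl, hle⟩ := hHM T g (by
    intro a b c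
    have h3 : ∀ n, T ((g n).1.mulVec (Pi.single a 1)) ((g n).1.mulVec (Pi.single b 1))
        ((g n).1.mulVec (Pi.single c 1)) = _ := fun n => polar3 T hS _ _ _
    simp_rw [h3, ← Matrix.mulVec_add]
    have h4 : (0 : ℂ) = (0 - 0 - 0 - 0 + 0 + 0 + 0) / 6 := by norm_num
    rw [h4]
    exact (((((((hev _).sub (hev _)).sub (hev _)).sub (hev _)).add (hev _)).add (hev _)).add
      (hev _)).div_const _)
  rcases hCLASS T hS (hSORT T e he l hl hle) with h | h
  · exact hnb (Or.inr (Or.inl h))
  · exact hnb (hLOW T hS h)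

theorem tri_expand55 (T : Tri) (e : Fin 6 → V) (v : Fin 6 → ℂ) :
    T (∑ i, v i • e i) (∑ i, v i • e i) (∑ i, v i • e i) =
      ∑ i, ∑ j, ∑ k, v i * v j * v k * T (e i) (e j) (e k) := by
  have h1 : T (∑ i, v i • e i) = ∑ i, v i • T (e i) := by
    rw [map_sum]; simp_rw [map_smul]
  have h2 : ∀ B : V →ₗ[ℂ] V →ₗ[ℂ] ℂ, B (∑ i, v i • e i) (∑ i, v i • e i) =
      ∑ j, ∑ k, v j * v k * B (e j) (e k) := by
    intro B
    have h3 : B (∑ i, v i • e i) = ∑ i, v i • B (e i) := by
      rw [map_sum]; simp_rw [map_smul]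
    rw [h3, LinearMap.sum_apply]
    refine Finset.sum_congr rfl fun j _ => ?_
    rw [LinearMap.smul_apply, map_sum, Finset.smul_sum]
    refine Finset.sum_congr rfl fun k _ => ?_
    rw [map_smul]
    simp only [smul_eq_mul]
    ring
  rw [h2, h1]
  simp only [LinearMap.sum_apply, LinearMap.smul_apply, smul_eq_mul]
  simp_rw [Finset.mul_sum]
  rw [Finset.sum_comm]
  have h4 : ∀ j k : Fin 6, ∑ i, v j * v k * (v i * T (e i) (e j) (e k)) =
      ∑ i, v i * v j * v k * T (e i) (e j) (e k) := fun j k =>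
    Finset.sum_congr rfl fun i _ => by ring
  calc _ = ∑ j, ∑ k, ∑ i, v i * v j * v k * T (e i) (e j) (e k) := by
        rw [Finset.sum_comm]; simp_rw [h4]
    _ = _ := by
        rw [Finset.sum_comm]
        rw [show (∑ y, ∑ x, ∑ i, v i * v x * v y * T (e i) (e x) (e y)) =
          ∑ j, ∑ k, ∑ i, v i * v j * v k * T (e i) (e j) (e k) from Finset.sum_comm]
        simp_rw [fun j => Finset.sum_comm (f := fun k i => v i * v j * v k * T (e i) (e j) (e k))
          (s := Finset.univ) (t := Finset.univ)]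
        rw [Finset.sum_comm]

/-- coefficients of a cubic form in terms of the trilinear form -/
theorem coeff_ne (F : MvPolynomial (Fin 6) ℂ) (T : Tri) (hS : Sym T)
    (hFT : ∀ v : V, MvPolynomial.eval v F = T v v v) (g : GL (Fin 6) ℂ) (a b c : Fin 6)
    (h : T (g.1.mulVec (Pi.single a 1)) (g.1.mulVec (Pi.single b 1))
      (g.1.mulVec (Pi.single c 1)) ≠ 0) :
    MvPolynomial.coeff (Finsupp.single a 1 + Finsupp.single b 1 + Finsupp.single c 1)
      (subst g.1 F) ≠ 0 := by
  classical
  set e : Fin 6 → V := fun i => g.1.mulVec (Pi.single i 1) with he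
  have hG : subst g.1 F = ∑ i, ∑ j, ∑ k, MvPolynomial.monomial
      (Finsupp.single i 1 + Finsupp.single j 1 + Finsupp.single k 1) (T (e i) (e j) (e k)) := by
    apply MvPolynomial.funext
    intro v
    rw [eval_subst, hFT]
    have hv : g.1.mulVec v = ∑ i, v i • e i := by
      simp_rw [he, ← Matrix.mulVec_smul, ← Matrix.mulVec_sum]
      congr 1
      funext i
      simp [Finset.sum_apply, Pi.single_apply]
    rw [hv, tri_expand55]
    simp only [map_sum]
    refine Finset.sum_congr rfl fun i _ => Finset.sum_congr rfl fun j _ =>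
      Finset.sum_congr rfl fun k _ => ?_
    rw [MvPolynomial.eval_monomial]
    rw [Finsupp.prod_add_index' (by simp) (by intros; rw [pow_add]),
      Finsupp.prod_add_index' (by simp) (by intros; rw [pow_add])]
    simp
    ring
  have hsymm : ∀ i j k : Fin 6, (Finsupp.single i 1 + Finsupp.single j 1 + Finsupp.single k 1 :
      Fin 6 →₀ ℕ) = Finsupp.single a 1 + Finsupp.single b 1 + Finsupp.single c 1 →
      T (e i) (e j) (e k) = T (e a) (e b) (e c) := by
    intro i j k hijk
    have pair : ∀ x y z w : Fin 6, (Finsupp.single x 1 + Finsupp.single y 1 : Fin 6 →₀ ℕ) =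
        Finsupp.single z 1 + Finsupp.single w 1 → (x = z ∧ y = w) ∨ (x = w ∧ y = z) := by
      intro x y z w hxy
      have hx : x = z ∨ x = w := by
        by_contra hcon
        push Not at hcon
        have := DFunLike.congr_fun hxy x
        simp [Finsupp.single_apply, hcon.1.symm, hcon.2.symm] at this
      rcases hx with rfl | rfl
      · left
        have := add_left_cancel hxy
        exact ⟨rfl, (Finsupp.single_left_injective one_ne_zero) this⟩
      · right
        rw [add_comm (Finsupp.single z 1)] at hxy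
        have := add_left_cancel hxy
        exact ⟨rfl, (Finsupp.single_left_injective one_ne_zero) this⟩
    have hi : i = a ∨ i = b ∨ i = c := by
      by_contra hcon
      push Not at hcon
      have := DFunLike.congr_fun hijk i
      simp [Finsupp.single_apply, hcon.1.symm, hcon.2.1.symm, hcon.2.2.symm] at this
    rcases hi with rfl | rfl | rfl
    · rw [add_assoc, add_assoc] at hijk
      rcases pair _ _ _ _ (add_left_cancel hijk) with ⟨rfl, rfl⟩ | ⟨rfl, rfl⟩
      · rfl
      · exact hS.s23 _ _ _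
    · have h2 : (Finsupp.single i 1 + (Finsupp.single j 1 + Finsupp.single k 1) : Fin 6 →₀ ℕ) =
        Finsupp.single i 1 + (Finsupp.single a 1 + Finsupp.single c 1) := by
        rw [← add_assoc, hijk]; abel
      rcases pair _ _ _ _ (add_left_cancel h2) with ⟨rfl, rfl⟩ | ⟨rfl, rfl⟩
      · exact hS.s12 _ _ _
      · rw [hS.s23, hS.s12]
    · have h2 : (Finsupp.single i 1 + (Finsupp.single j 1 + Finsupp.single k 1) : Fin 6 →₀ ℕ) =
        Finsupp.single i 1 + (Finsupp.single a 1 + Finsupp.single b 1) := by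
        rw [← add_assoc, hijk]; abel
      rcases pair _ _ _ _ (add_left_cancel h2) with ⟨rfl, rfl⟩ | ⟨rfl, rfl⟩
      · rw [hS.s12, hS.s23]
      · rw [hS.s12, hS.s23, hS.s12]
  rw [hG]
  simp only [MvPolynomial.coeff_sum, MvPolynomial.coeff_monomial]
  have hval : ∀ i j k : Fin 6, (if (Finsupp.single i 1 + Finsupp.single j 1 + Finsupp.single k 1 :
      Fin 6 →₀ ℕ) = Finsupp.single a 1 + Finsupp.single b 1 + Finsupp.single c 1 then
      T (e i) (e j) (e k) else 0) = (if (Finsupp.single i 1 + Finsupp.single j 1 +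
      Finsupp.single k 1 : Fin 6 →₀ ℕ) = Finsupp.single a 1 + Finsupp.single b 1 +
      Finsupp.single c 1 then (1 : ℕ) else 0 : ℕ) * T (e a) (e b) (e c) := by
    intro i j k
    split_ifs with h1
    · rw [hsymm i j k h1]; simp
    · simp
  simp_rw [hval, ← Finset.sum_mul, ← Nat.cast_sum]
  apply mul_ne_zero _ h
  rw [Nat.cast_ne_zero]
  apply ne_of_gt
  apply Finset.sum_pos' (fun _ _ => Nat.zero_le _)
  refine ⟨a, Finset.mem_univ _, ?_⟩
  apply Finset.sum_pos' (fun _ _ => Nat.zero_le _)
  refine ⟨b, Finset.mem_univ _, ?_⟩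
  apply Finset.sum_pos' (fun _ _ => Nat.zero_le _)
  refine ⟨c, Finset.mem_univ _, ?_⟩
  simp

end CF55
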