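import Pool.Agent.Helper55.CF.Defs

/-! The final statement (for reading). -/

noncomputable section
namespace CF55

/-- The Hilbert–Mumford criterion for semistability: for every basis (`g ∈ GL₆`) and every
nonzero or zero real weight vector `r` with sum zero (in particular the integral ones, which are
the one-parameter subgroups of `SL₆` diagonal in that basis) some monomial of `F ∘ g` has
weight `≥ 0`. -/
def HilbertMumford (F : MvPolynomial (Fin 6) ℂ) : Prop :=
  ∀ (g : GL (Fin 6) ℂ) (r : Fin 6 → ℝ), ∑ i, r i = 0 →
    ∃ d ∈ (subst g.1 F).support, 0 ≤ ∑ i, r i * (d i : ℝ)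

/-- MP_b612a6_ag, Q1, affirmative answer. -/
def FinalStatement : Prop :=
  ∀ F : MvPolynomial (Fin 6) ℂ, F ≠ 0 → F.IsHomogeneous 3 → OneDuBois F →
    GITSemistable F ∧ HilbertMumford F

end CF55
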