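import Pool.Agent.Helper55.CF.Final2
import Pool.Agent.Helper55.CF.Statement

open MeasureTheory Complex
open scoped ContDiff ComplexConjugate

noncomputable section
namespace CF55

theorem final_hm (hSORT : G_SORT) (hCLASS : G_CLASS) (hLOW : G_LOW)
    (F : MvPolynomial (Fin 6) ℂ) (T : Tri) (hS : Sym T)
    (hFT : ∀ v : V, MvPolynomial.eval v F = T v v v) (hnb : ¬ Bad T) : HilbertMumford F := by
  intro g r hr
  by_contra hcon
  push Not at hcon
  have hli : LinearIndependent ℂ (fun i => g.1.mulVec (Pi.single i 1)) := by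
    have h1 : (fun i => g.1.mulVec (Pi.single i 1)) = g.1.col := by
      funext i; simp [Matrix.mulVec_single_one]
    rw [h1, Matrix.linearIndependent_cols_iff_isUnit]
    exact g.isUnit
  have hU : Unstable T := by
    apply hSORT T _ hli r hr
    intro a b c habc
    have h2 := coeff_ne F T hS hFT g a b c habc
    have h3 := hcon _ (MvPolynomial.mem_support_iff.2 h2)
    simp only [Finsupp.add_apply, Nat.cast_add, mul_add, Finset.sum_add_distrib] at h3
    simpa [Finsupp.single_apply] using h3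
  rcases hCLASS T hS hU with h | h
  · exact hnb (Or.inr (Or.inl h))
  · exact hnb (hLOW T hS h)

theorem final_all (hCORE : G_CORE) (hTR : G_TRANSF) (hPOLAR : G_POLAR) (hHM : G_HM)
    (hSORT : G_SORT) (hCLASS : G_CLASS) (hLOW : G_LOW)
    (h0 : G_A0) (h1 : G_A1) (h2 : G_A2) (h3 : G_A3) (h4 : G_A4) (h5 : G_A5) :
    FinalStatement := by
  intro F _ hF hDB
  obtain ⟨T, hS, hFT⟩ := hPOLAR F hF
  have hnb := not_bad hCORE hTR h0 h1 h2 h3 h4 h5 F T hS hFT hDB
  exact ⟨final_closure hHM hSORT hCLASS hLOW F hF T hS hFT hnb,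
    final_hm hSORT hCLASS hLOW F T hS hFT hnb⟩

end CF55
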