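import Pool.Agent.Helper55.CF.Setup

open MeasureTheory Complex
open scoped ContDiff ComplexConjugate

noncomputable section
namespace CF55

/-! ## Part 1 : from the functional equation to the estimates -/

/-- adjoints of operators of the Weyl algebra -/
def G_ADJ : Prop := ∀ P ∈ weyl 5, ∀ (U : Set X5) (ψ : X5 → ℂ), Test U ψ →
  ∃ ψ' : X5 → ℂ, Test U ψ' ∧ ∀ g q : MvPolynomial (Fin 5) ℂ,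
    ∫ x, MvPolynomial.eval x (P g) * conj (MvPolynomial.eval x q) * ψ x =
      ∫ x, MvPolynomial.eval x g * conj (MvPolynomial.eval x q) * ψ' x

/-- extrapolation of the functional equation to `s = -1` -/
def G_EXTRA : Prop := ∀ (p u : MvPolynomial (Fin 5) ℂ) (b : Polynomial ℂ) (m : ℕ)
  (P : ℕ → Module.End ℂ (MvPolynomial (Fin 5) ℂ)), (∀ j, P j ∈ weyl 5) → p ≠ 0 →
  b.eval (-1) = 0 →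
  (∀ k : ℕ, MvPolynomial.C (b.eval (k : ℂ)) * u * p ^ k =
    ∑ j ∈ Finset.range m, (k : ℂ) ^ j • P j (p ^ (k + 1))) →
  ∑ j ∈ Finset.range m, (-1 : ℂ) ^ j • P j 1 = 0

/-- the moment relation -/
def G_MOM : Prop := ∀ p : MvPolynomial (Fin 5) ℂ, MinExpGE 2 p →
  ∃ (u : MvPolynomial (Fin 5) ℂ) (b : Polynomial ℂ), MvPolynomial.eval 0 u ≠ 0 ∧ b ≠ 0 ∧
    (∀ ρ : ℂ, b.IsRoot ρ → ρ.re ≤ -2) ∧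
    ∀ ψ : X5 → ℂ, Test {x | MvPolynomial.eval x u ≠ 0} ψ →
      ∃ (N : ℕ) (ψs : ℕ → X5 → ℂ), (∀ l, Test {x | MvPolynomial.eval x u ≠ 0} (ψs l)) ∧
        (∀ k : ℕ, ((k : ℂ) + 1) ^ 2 * (b.eval (k : ℂ) * conj (b.eval (k : ℂ))) * mu p ψ k =
          ∑ l ∈ Finset.range N, (k : ℂ) ^ l * mu p (ψs l) (k + 1)) ∧
        ∑ l ∈ Finset.range N, (-1 : ℂ) ^ l * mu p (ψs l) 0 = 0

/-- exponential series with polynomial weights -/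
def G_SER : Prop := ∀ r : Polynomial ℂ, ∃ rh : Polynomial ℂ,
  (∀ t : ℝ, Ser (fun k => r.eval (k : ℂ) * (t : ℂ) ^ k) 1 = rh.eval (t : ℂ) * cexp (-(t : ℂ))) ∧
  ∀ (p : MvPolynomial (Fin 5) ℂ) (ψ : X5 → ℂ), Continuous ψ → HasCompactSupport ψ →
    (∃ A B : ℝ, ∀ k : ℕ, ‖mu p ψ k‖ ≤ A * B ^ k) ∧
    ∀ R : ℝ, Ser (fun k => r.eval (k : ℂ) * mu p ψ k) R =
      ∫ x, rh.eval ((R * ‖MvPolynomial.eval x p‖ ^ 2 : ℝ) : ℂ) *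
        cexp (-((R * ‖MvPolynomial.eval x p‖ ^ 2 : ℝ) : ℂ)) * ψ x

/-- differential inequalities in `R ∂_R` -/
def G_ODE : Prop := ∀ (a : ℕ → ℂ) (n : ℕ) (q : Polynomial ℂ), q ≠ 0 →
  (∀ ρ : ℂ, q.IsRoot ρ → ρ.re ≤ -(n : ℝ)) →
  (∃ A B : ℝ, ∀ k : ℕ, ‖a k‖ ≤ A * B ^ k) →
  (∃ (C : ℝ) (j : ℕ), ∀ R : ℝ, 2 ≤ R →
    ‖Ser (fun k => q.eval (k : ℂ) * a k) R‖ ≤ C * Real.log R ^ j / R ^ n) →
  ∃ (C : ℝ) (j : ℕ), ∀ R : ℝ, 2 ≤ R → ‖Ser a R‖ ≤ C * Real.log R ^ j / R ^ n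

def G_CORE : Prop := ∀ p : MvPolynomial (Fin 5) ℂ, MinExpGE 2 p →
  GoodOn (fun x : X5 => MvPolynomial.eval x p)

def G_TRANSF : Prop := ∀ f : X5 → ℂ, GoodOn f →
  GoodOn (fun q : E => f (Fin.cons q.1 (Fin.cons q.2.1 q.2.2)))

/-! ## Part 2 : analysis of the types -/

/-- invariance under local diffeomorphisms -/
def G_CHG : Prop := ∀ (f ft : E → ℂ) (Θ : E → E) (L : E ≃L[ℝ] E), GoodOn f → Θ 0 = 0 →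
  ContDiffAt ℝ ∞ Θ 0 → HasFDerivAt Θ (L : E →L[ℝ] E) 0 →
  (∀ᶠ x in nhds 0, ft x = f (Θ x)) → GoodOn ft

/-- non-stationary phase in one complex variable, uniform in parameters -/
def G_NSP : Prop := ∀ (Q : Type) [NormedAddCommGroup Q] [NormedSpace ℝ Q],
  ∀ G φ : ℂ × Q → ℂ, ContDiff ℝ ∞ G → ContDiff ℝ ∞ φ →
  (∀ p, Differentiable ℂ fun ζ => G (ζ, p)) →
  ∀ (K : Set ℂ) (Kq : Set Q), IsCompact K → IsCompact Kq →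
  (∀ ζ p, ζ ∉ K → φ (ζ, p) = 0) →
  (∀ ζ ∈ K, ∀ p ∈ Kq, deriv (fun ζ => G (ζ, p)) ζ ≠ 0) →
  ∃ C : ℝ, ∀ p ∈ Kq, ∀ s : ℂ,
    ‖∫ ζ, cexp (I * ((s * G (ζ, p)).re : ℂ)) * φ (ζ, p)‖ ≤ C / (1 + ‖s‖) ^ 4

/-- the Gaussian integral -/
def G_GAUSS : Prop := ∀ (α β : ℂ) (ε : ℝ), 0 < ε →
  Integrable (fun x : ℂ => cexp (I * ((α * x ^ 2 + 2 * β * x).re : ℂ) - ε * ‖x‖ ^ 2)) ∧
  ∫ x : ℂ, cexp (I * ((α * x ^ 2 + 2 * β * x).re : ℂ) - ε * ‖x‖ ^ 2) =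
    (Real.pi / Real.sqrt (ε ^ 2 + ‖α‖ ^ 2) : ℝ) *
      cexp (-((ε * ‖β‖ ^ 2 : ℝ) + I * ((conj α * β ^ 2).re : ℂ)) / ((ε ^ 2 + ‖α‖ ^ 2 : ℝ) : ℂ))

/-- stationary phase for `y ^ 2`, with an unspecified constant -/
def G_N1a : Prop := ∀ χ : ℂ → ℝ, ContDiff ℝ ∞ χ → HasCompactSupport χ →
  (∀ y, χ y = χ (‖y‖ : ℂ)) → (∀ᶠ y in nhds 0, χ y = 1) →
  ∃ (c : ℂ) (K : ℝ), ∀ σ : ℂ, 1 ≤ ‖σ‖ →
    ‖(∫ y : ℂ, cexp (I * ((σ * y ^ 2).re : ℂ)) * χ y) - c / ‖σ‖‖ ≤ K / ‖σ‖ ^ 4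

/-- stationary phase for `y ^ 2` -/
def G_N1 : Prop := ∀ χ : ℂ → ℝ, ContDiff ℝ ∞ χ → HasCompactSupport χ → (∀ y, χ y = χ (‖y‖ : ℂ)) →
  (∀ y, 0 ≤ χ y) → (∀ᶠ y in nhds 0, χ y = 1) →
  ∃ c K : ℝ, 0 < c ∧ ∀ σ : ℂ, 1 ≤ ‖σ‖ →
    ‖(∫ y : ℂ, cexp (I * ((σ * y ^ 2).re : ℂ)) * χ y) - c / ‖σ‖‖ ≤ K / ‖σ‖ ^ 4

/-- Fourier form of the second quantity in `GoodOn` -/
def G_LINK : Prop := ∀ (f : E → ℂ) (ψ : E → ℝ), Continuous f → Continuous ψ →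
  HasCompactSupport ψ → ∀ R : ℝ, 0 < R →
  ∫ σ : ℂ, (‖σ‖ ^ 2 * Real.exp (-‖σ‖ ^ 2 / (4 * R)) : ℝ) *
      ∫ x, cexp (I * ((σ * f x).re : ℂ)) * ψ x =
    ((-(16 * Real.pi * R ^ 2) *
      ∫ x, (R * ‖f x‖ ^ 2 - 1) * Real.exp (-(R * ‖f x‖ ^ 2)) * ψ x : ℝ) : ℂ)

/-- positivity argument, `m = 1` and `m = 2` -/
def G_KEY (m : ℕ) : Prop := ∀ f : E → ℂ, Continuous f → GoodOn f → ∃ r : ℝ, 0 < r ∧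
  ∀ ψ : E → ℝ, ContDiff ℝ ∞ ψ → HasCompactSupport ψ → tsupport ψ ⊆ Metric.ball 0 r →
  ∀ (W : Z → ℝ) (h : Z → ℂ), (∀ z, 0 ≤ W z) → Integrable W → Measurable h →
  ∀ c K : ℝ, 0 < c →
  (∀ σ : ℂ, 1 ≤ ‖σ‖ →
    ‖(∫ x, cexp (I * ((σ * f x).re : ℂ)) * ψ x) -
      (c / ‖σ‖ ^ m : ℝ) * ∫ z, cexp (I * ((σ * h z).re : ℂ)) * W z‖ ≤ K / ‖σ‖ ^ 4) →
  ∃ (C : ℝ) (k : ℕ), ∀ R : ℝ, 2 ≤ R →
    ∫ z, W z * Real.exp (-(R * ‖h z‖ ^ 2)) ≤ C * Real.log R ^ k / R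

/-- vanishing order hypothesis -/
def Van (n : ℕ) (B : Z → ℂ) : Prop :=
  ContDiff ℂ ∞ B ∧ ∃ K : ℝ, ∀ z : Z, ‖z‖ ≤ 1 → ‖B z‖ ≤ K * ‖z‖ ^ n

/-- non-stationary region, one variable -/
def G_D1a : Prop := ∀ B C : Z → ℂ, Van 2 B → Van 3 C → ∀ ε : ℝ, 0 < ε → ∃ r : ℝ, 0 < r ∧
  ∀ φ : Z → ℝ, ContDiff ℝ ∞ φ → HasCompactSupport φ → tsupport φ ⊆ Metric.ball 0 r →
  ∃ K : ℝ, ∀ σ x : ℂ, 1 ≤ ‖σ‖ → ε ≤ ‖x‖ →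
    ‖∫ z : Z, cexp (I * ((σ * (z 0 * x ^ 2 + 2 * B z * x + C z)).re : ℂ)) * φ z‖ ≤
      K / (‖σ‖ ^ 4 * ‖x‖ ^ 8)

/-- integration over one variable -/
def G_D1 : Prop := ∀ B C : Z → ℂ, Van 2 B → Van 3 C →
  ∀ χ : ℂ → ℝ, ContDiff ℝ ∞ χ → HasCompactSupport χ → (∀ y, 0 ≤ χ y ∧ χ y ≤ 1) →
  (∀ᶠ y in nhds 0, χ y = 1) → ∃ r : ℝ, 0 < r ∧
  ∀ φ : Z → ℝ, ContDiff ℝ ∞ φ → HasCompactSupport φ → tsupport φ ⊆ Metric.ball 0 r →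
  Integrable (fun z => φ z / ‖z 0‖) ∧
  ∃ K : ℝ, ∀ σ : ℂ, 1 ≤ ‖σ‖ →
    ‖(∫ x : ℂ, ∫ z : Z,
        cexp (I * ((σ * (z 0 * x ^ 2 + 2 * B z * x + C z)).re : ℂ)) * (χ x * φ z : ℝ)) -
      (Real.pi / ‖σ‖ : ℝ) * ∫ z, cexp (I * ((σ * (C z - B z ^ 2 / z 0)).re : ℂ)) *
        (φ z / ‖z 0‖ : ℝ)‖ ≤ K / ‖σ‖ ^ 4

def gg5 (κ : ℂ) (N₁ N₂ C : Z → ℂ) (x y : ℂ) (z : Z) : ℂ :=
  z 0 * x ^ 2 + 2 * κ * z 2 * x * y + z 1 * y ^ 2 + 2 * N₁ z * x + 2 * N₂ z * y + C z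

def hh5 (κ : ℂ) (N₁ N₂ C : Z → ℂ) (z : Z) : ℂ :=
  C z - N₂ z ^ 2 / z 1 - (N₁ z - κ * z 2 * N₂ z / z 1) ^ 2 / (z 0 - (κ * z 2) ^ 2 / z 1)

/-- non-stationary region, two variables -/
def G_D2a : Prop := ∀ κ : ℂ, ∀ N₁ N₂ C : Z → ℂ, Van 2 N₁ → Van 2 N₂ → Van 3 C →
  ∀ ε : ℝ, 0 < ε → ∃ r : ℝ, 0 < r ∧
  ∀ φ : Z → ℝ, ContDiff ℝ ∞ φ → HasCompactSupport φ → tsupport φ ⊆ Metric.ball 0 r →
  ∃ K : ℝ, ∀ σ x y : ℂ, 1 ≤ ‖σ‖ → ε ≤ max ‖x‖ ‖y‖ →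
    ‖∫ z : Z, cexp (I * ((σ * gg5 κ N₁ N₂ C x y z).re : ℂ)) * φ z‖ ≤
      K / (‖σ‖ ^ 4 * (max ‖x‖ ‖y‖) ^ 8)

/-- local integrability of `1 / |z₀ z₁ - κ² z₂²|` -/
def G_INT5 : Prop := ∀ κ : ℂ, ∀ φ : Z → ℝ, Continuous φ → HasCompactSupport φ →
  Integrable (fun z => φ z / ‖z 0 * z 1 - (κ * z 2) ^ 2‖)

/-- integration over two variables -/
def G_D2 : Prop := ∀ κ : ℂ, ∀ N₁ N₂ C : Z → ℂ, Van 2 N₁ → Van 2 N₂ → Van 3 C →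
  ∀ χ : ℂ → ℝ, ContDiff ℝ ∞ χ → HasCompactSupport χ → (∀ y, 0 ≤ χ y ∧ χ y ≤ 1) →
  (∀ᶠ y in nhds 0, χ y = 1) → ∃ r : ℝ, 0 < r ∧
  ∀ φ : Z → ℝ, ContDiff ℝ ∞ φ → HasCompactSupport φ → tsupport φ ⊆ Metric.ball 0 r →
  Integrable (fun z => φ z / ‖z 0 * z 1 - (κ * z 2) ^ 2‖) ∧
  ∃ K : ℝ, ∀ σ : ℂ, 1 ≤ ‖σ‖ →
    ‖(∫ x : ℂ, ∫ y : ℂ, ∫ z : Z,
        cexp (I * ((σ * gg5 κ N₁ N₂ C x y z).re : ℂ)) * (χ x * χ y * φ z : ℝ)) -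
      (Real.pi ^ 2 / ‖σ‖ ^ 2 : ℝ) * ∫ z, cexp (I * ((σ * hh5 κ N₁ N₂ C z).re : ℂ)) *
        (φ z / ‖z 0 * z 1 - (κ * z 2) ^ 2‖ : ℝ)‖ ≤ K / ‖σ‖ ^ 4

/-- lower bounds -/
def G_LB2 : Prop := ∀ B C : Z → ℂ, Van 2 B → Van 3 C → ∀ φ : Z → ℝ, ContDiff ℝ ∞ φ →
  (∀ z, 0 ≤ φ z) → (∀ᶠ z in nhds 0, φ z = 1) → Integrable (fun z => φ z / ‖z 0‖) →
  ∃ c R₀ : ℝ, 0 < c ∧ ∀ R : ℝ, R₀ ≤ R → c * R ^ (-(5 / 6) : ℝ) ≤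
    ∫ z, φ z / ‖z 0‖ * Real.exp (-(R * ‖C z - B z ^ 2 / z 0‖ ^ 2))

def G_LB5 : Prop := ∀ κ : ℂ, (κ = 0 ∨ κ = 1) → ∀ N₁ N₂ C : Z → ℂ, Van 2 N₁ → Van 2 N₂ → Van 3 C →
  ∀ φ : Z → ℝ, ContDiff ℝ ∞ φ → (∀ z, 0 ≤ φ z) → (∀ᶠ z in nhds 0, φ z = 1) →
  Integrable (fun z => φ z / ‖z 0 * z 1 - (κ * z 2) ^ 2‖) →
  ∃ c R₀ : ℝ, 0 < c ∧ ∀ R : ℝ, R₀ ≤ R → c * R ^ (-(2 / 3) : ℝ) ≤
    ∫ z, φ z / ‖z 0 * z 1 - (κ * z 2) ^ 2‖ * Real.exp (-(R * ‖hh5 κ N₁ N₂ C z‖ ^ 2))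

/-- weighted boxes -/
def Box (w : Fin 3 → ℕ) (d : ℕ) (h : Z → ℂ) : Prop :=
  ∃ K δ : ℝ, 0 < δ ∧ ∀ t : ℝ, 0 < t → t ≤ 1 → ∀ z : Z, (∀ i, ‖z i‖ ≤ δ * t ^ w i) →
    ‖h z‖ ≤ K * t ^ d

def G_LB1 : Prop := ∀ (w : Fin 3 → ℕ) (d : ℕ) (h : Z → ℂ), 0 < d → ∑ i, w i < d → Box w d h →
  Continuous h →
  ∀ φ : Z → ℝ, ContDiff ℝ ∞ φ → HasCompactSupport φ → (∀ z, 0 ≤ φ z) → (∀ᶠ z in nhds 0, φ z = 1) →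
  ¬ ∃ (C : ℝ) (k : ℕ), ∀ R : ℝ, 2 ≤ R →
    ∫ z, φ z * Real.exp (-(R * ‖h z‖ ^ 2)) ≤ C * Real.log R ^ k / R

/-- the final analytic statements for the types -/
def G_TYPE1 : Prop := ∀ (w : Fin 3 → ℕ) (d : ℕ) (h : Z → ℂ), 0 < d → ∑ i, w i < d → Box w d h →
  Continuous h → ¬ GoodOn (fun q : E => q.1 ^ 2 + q.2.1 ^ 2 + h q.2.2)

def G_TYPE2 : Prop := ∀ B C : Z → ℂ, Van 2 B → Van 3 C →
  ¬ GoodOn (fun q : E => q.2.1 ^ 2 + (q.2.2 0 * q.1 ^ 2 + 2 * B q.2.2 * q.1 + C q.2.2))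

def G_TYPE3 : Prop := ∀ B C : Z → ℂ, Van 2 B → Van 3 C →
  ¬ GoodOn (fun q : E => q.2.2 0 * q.1 ^ 2 + 2 * B q.2.2 * q.1 + C q.2.2)

def G_TYPE5 : Prop := ∀ κ : ℂ, (κ = 0 ∨ κ = 1) → ∀ N₁ N₂ C : Z → ℂ, Van 2 N₁ → Van 2 N₂ → Van 3 C →
  ¬ GoodOn (fun q : E => gg5 κ N₁ N₂ C q.1 q.2.1 q.2.2)

/-- the critical point -/
def G_XI : Prop := ∀ (T : Tri) (e : Fin 6 → V), Sym T → (∀ a, T (e 0) (e 0) (e a) = 0) →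
  T (e 0) (e 1) (e 1) = 0 → T (e 0) (e 2) (e 2) = 0 → T (e 0) (e 1) (e 2) ≠ 0 →
  ∃ ξ : Z → ℂ × ℂ, ContDiffAt ℝ ∞ ξ 0 ∧ ξ 0 = 0 ∧
    ∀ᶠ z : Z in nhds 0,
      T (chartVec e ((ξ z).1, (ξ z).2, z)) (chartVec e ((ξ z).1, (ξ z).2, z)) (e 1) = 0 ∧
      T (chartVec e ((ξ z).1, (ξ z).2, z)) (chartVec e ((ξ z).1, (ξ z).2, z)) (e 2) = 0

/-- Morse lemma with parameters -/
def G_MORSE : Prop := ∀ (T : Tri) (e : Fin 6 → V), Sym T → (∀ a, T (e 0) (e 0) (e a) = 0) →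
  T (e 0) (e 1) (e 1) = 0 → T (e 0) (e 2) (e 2) = 0 → T (e 0) (e 1) (e 2) ≠ 0 →
  ∃ (h : Z → ℂ) (Θ : E → E) (L : E ≃L[ℝ] E) (ξ : Z → ℂ × ℂ), Continuous h ∧ Θ 0 = 0 ∧
    ContDiffAt ℝ ∞ Θ 0 ∧ HasFDerivAt Θ (L : E →L[ℝ] E) 0 ∧
    (∀ᶠ x : E in nhds 0, x.1 ^ 2 + x.2.1 ^ 2 + h x.2.2 = chart T e (Θ x)) ∧
    ContinuousAt ξ 0 ∧ ξ 0 = 0 ∧
    ∀ᶠ z : Z in nhds 0, h z = chart T e ((ξ z).1, (ξ z).2, z) ∧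
      T (chartVec e ((ξ z).1, (ξ z).2, z)) (chartVec e ((ξ z).1, (ξ z).2, z)) (e 1) = 0 ∧
      T (chartVec e ((ξ z).1, (ξ z).2, z)) (chartVec e ((ξ z).1, (ξ z).2, z)) (e 2) = 0

/-- the weighted estimate for the critical value -/
def G_CRIT : Prop := ∀ (T : Tri) (e : Fin 6 → V) (w : Fin 6 → ℕ) (d : ℕ), Sym T → A1data T e w d →
  ∀ (h : Z → ℂ) (ξ : Z → ℂ × ℂ), ContinuousAt ξ 0 → ξ 0 = 0 →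
  (∀ᶠ z : Z in nhds 0, h z = chart T e ((ξ z).1, (ξ z).2, z) ∧
      T (chartVec e ((ξ z).1, (ξ z).2, z)) (chartVec e ((ξ z).1, (ξ z).2, z)) (e 1) = 0 ∧
      T (chartVec e ((ξ z).1, (ξ z).2, z)) (chartVec e ((ξ z).1, (ξ z).2, z)) (e 2) = 0) →
  Box ![w 3, w 4, w 5] d h

def G_A1 : Prop := ∀ (T : Tri) (e : Fin 6 → V) (w : Fin 6 → ℕ) (d : ℕ), Sym T →
  A1data T e w d → ¬ GoodOn (chart T e)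

def G_A2 : Prop := ∀ (T : Tri) (e : Fin 6 → V), Sym T → A2data T e → ¬ GoodOn (chart T e)

def G_A3 : Prop := ∀ (T : Tri) (e : Fin 6 → V), Sym T → A3data T e → ¬ GoodOn (chart T e)

def G_A4 : Prop := ∀ (T : Tri) (e : Fin 6 → V), Sym T → A4data T e → ¬ GoodOn (chart T e)

def G_A5 : Prop := ∀ (T : Tri) (e : Fin 6 → V) (κ : ℂ), Sym T → A5data T e κ →
  ¬ GoodOn (chart T e)

def G_A0 : Prop := ¬ GoodOn (fun _ : E => (0 : ℂ))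

/-! ## Part 3 : algebra -/

def G_POLAR : Prop := ∀ F : MvPolynomial (Fin 6) ℂ, F.IsHomogeneous 3 →
  ∃ T : Tri, Sym T ∧ ∀ v : V, MvPolynomial.eval v F = T v v v

/-- singular value decomposition -/
def G_SVD : Prop := ∀ g : Matrix (Fin 6) (Fin 6) ℂ, g.det ≠ 0 →
  ∃ k ∈ Matrix.unitaryGroup (Fin 6) ℂ, ∃ k' ∈ Matrix.unitaryGroup (Fin 6) ℂ, ∃ a : Fin 6 → ℝ,
    (∀ i, 0 < a i) ∧ g = k * Matrix.diagonal (fun i => (a i : ℂ)) * k' ∧ ∏ i, a i = ‖g.det‖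

/-- the Hilbert–Mumford step -/
def G_HM : Prop := ∀ T : Tri, ∀ g : ℕ → Matrix.SpecialLinearGroup (Fin 6) ℂ,
  (∀ a b c : Fin 6, Filter.Tendsto (fun n => T ((g n).1.mulVec (Pi.single a 1))
    ((g n).1.mulVec (Pi.single b 1)) ((g n).1.mulVec (Pi.single c 1))) Filter.atTop (nhds 0)) →
  ∃ e : Fin 6 → V, LinearIndependent ℂ e ∧ ∃ l : Fin 6 → ℝ, ∑ i, l i = 0 ∧
    ∀ a b c, T (e a) (e b) (e c) ≠ 0 → l a + l b + l c < 0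

def G_SORT : Prop := ∀ T : Tri, ∀ e : Fin 6 → V, LinearIndependent ℂ e → ∀ l : Fin 6 → ℝ,
  ∑ i, l i = 0 → (∀ a b c, T (e a) (e b) (e c) ≠ 0 → l a + l b + l c < 0) → Unstable T

/-- flag -/
def Fl (e : Fin 6 → V) (k : Fin 6) : Submodule ℂ V := Submodule.span ℂ (e '' {i | i ≤ k})

def G_R2 : Prop := ∀ T : Tri, Sym T → R2pat T → ∃ e w d, A1data T e w d

/-- first case -/
def G_CA : Prop := ∀ (T : Tri) (e : Fin 6 → V), Sym T → LinearIndependent ℂ e →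
  (∀ a ∈ Fl e 2, ∀ b ∈ Fl e 3, ∀ c ∈ Fl e 4, T a b c = 0) → R2pat T ∨ LowRank T

/-- second case -/
def G_CT : Prop := ∀ (T : Tri) (e : Fin 6 → V), Sym T → LinearIndependent ℂ e →
  (∀ a ∈ Fl e 1, ∀ b ∈ Fl e 2, ∀ c, T a b c = 0) → R2pat T ∨ LowRank T

/-- third case: quadratic term of rank at most two -/
def G_CS : Prop := ∀ (T : Tri) (e : Fin 6 → V) (w : Fin 6 → ℝ), Sym T → LinearIndependent ℂ e →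
  Monotone w → w 0 = 0 →
  (∀ a b c, T (e a) (e b) (e c) ≠ 0 → (∑ i, w i) / 2 < w a + w b + w c) →
  w 3 + w 4 ≤ (∑ i, w i) / 2 → (∑ i, w i) / 2 < w 2 + w 3 + w 4 →
  (T (e 0) (e 4) (e 4) = 0 ∨
    (T (e 0) (e 1) (e 5) = 0 ∧ T (e 0) (e 2) (e 5) = 0 ∧ T (e 0) (e 3) (e 5) = 0)) →
  R2pat T ∨ LowRank T

/-- fourth case: rank three, `j = 3` -/
def G_CJ3 : Prop := ∀ (T : Tri) (e : Fin 6 → V) (w : Fin 6 → ℝ), Sym T → LinearIndependent ℂ e →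
  Monotone w → w 0 = 0 →
  (∀ a b c, T (e a) (e b) (e c) ≠ 0 → (∑ i, w i) / 2 < w a + w b + w c) →
  w 3 + w 4 ≤ (∑ i, w i) / 2 → (∑ i, w i) / 2 < w 2 + w 3 + w 4 →
  T (e 0) (e 4) (e 4) ≠ 0 → T (e 0) (e 1) (e 5) = 0 → T (e 0) (e 2) (e 5) = 0 →
  T (e 0) (e 3) (e 5) ≠ 0 → ∃ e w d, A1data T e w d

/-- fifth case: rank three, `j = 2` -/
def G_CJ2 : Prop := ∀ (T : Tri) (e : Fin 6 → V) (w : Fin 6 → ℝ), Sym T → LinearIndependent ℂ e →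
  Monotone w → w 0 = 0 →
  (∀ a b c, T (e a) (e b) (e c) ≠ 0 → (∑ i, w i) / 2 < w a + w b + w c) →
  w 3 + w 4 ≤ (∑ i, w i) / 2 → (∑ i, w i) / 2 < w 2 + w 3 + w 4 →
  T (e 0) (e 4) (e 4) ≠ 0 → T (e 0) (e 1) (e 5) = 0 → T (e 0) (e 2) (e 5) ≠ 0 →
  (∃ e w d, A1data T e w d) ∨ R2pat T ∨ LowRank T

/-- classification -/
def G_CLASS : Prop := ∀ T : Tri, Sym T → Unstable T → (∃ e w d, A1data T e w d) ∨ LowRank T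

/-- a cubic form on a subspace all of whose zeros are singular is a cube -/
def G_CUBE : Prop := ∀ (T : Tri) (H : Submodule ℂ V), Sym T →
  (∀ u ∈ H, T u u u = 0 → ∀ v ∈ H, T u u v = 0) →
  ∃ l : V →ₗ[ℂ] ℂ, ∀ x ∈ H, ∀ y ∈ H, ∀ z ∈ H, T x y z = l x * l y * l z

def G_TK : Prop := ∀ T : Tri, Sym T → TwoKer T →
  T = 0 ∨ (∃ e, A3data T e) ∨ ∃ e, A4data T e

/-- rank one point, good case -/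
def G_R1a : Prop := ∀ (T : Tri) (P : V) (m : V →ₗ[ℂ] ℂ), Sym T → P ≠ 0 → m ≠ 0 →
  (∀ v, T P P v = 0) → (∀ v, T P v v = m v ^ 2) → ∀ u : V, m u = 0 → T u u u = 0 →
  (∃ v, m v = 0 ∧ T u u v ≠ 0) → ∃ e, A2data T e

/-- rank one point, cube case -/
def G_R1b : Prop := ∀ (T : Tri) (P : V) (m l : V →ₗ[ℂ] ℂ), Sym T → P ≠ 0 → m ≠ 0 →
  (∀ v, T P P v = 0) → (∀ v, T P v v = m v ^ 2) →
  (∀ x y z, m x = 0 → m y = 0 → m z = 0 → T x y z = l x * l y * l z) → R2pat T ∨ TwoKer T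

/-- rank zero point: singular points of small rank -/
def G_BETA : Prop := ∀ (T : Tri) (P s : V), Sym T → (∀ v v', T P v v' = 0) → SingPt T P s →
  (∃ v, LinearIndependent ℂ ![P, s, v] ∧ ∀ v', T s v v' = 0) →
  (∃ m : V →ₗ[ℂ] ℂ, ∀ v, T s v v = m v ^ 2) ∨ ∃ e w d, A1data T e w d

/-- all singular points have the smallest possible radical -/
def Nodal (T : Tri) (P : V) : Prop := ∀ s, SingPt T P s → ∀ v, (∀ v', T s v v' = 0) →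
  v ∈ Submodule.span ℂ {P, s}

/-- countability of the singular points -/
def G_CNT : Prop := ∀ (T : Tri) (P : V), Sym T → P ≠ 0 → (∀ v v', T P v v' = 0) → Nodal T P →
  ∃ S : Set V, S.Countable ∧ (∀ s ∈ S, SingPt T P s) ∧
    ∀ s, SingPt T P s → ∃ s₀ ∈ S, ∃ α β : ℂ, α ≠ 0 ∧ s = α • s₀ + β • P

/-- countably many non-zero polynomials -/
def G_AVOID : Prop := ∀ p : ℕ → MvPolynomial (Fin 6) ℂ, (∀ n, p n ≠ 0) →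
  ∃ w : V, ∀ n, MvPolynomial.eval w (p n) ≠ 0

/-- non-vanishing of the condition polynomials -/
def G_NZ : Prop := ∀ (T : Tri) (P s s' : V), Sym T → (∀ v v', T P v v' = 0) → Nodal T P →
  SingPt T P s → SingPt T P s' →
  ∃ w : V, 3 * T s w w * T s' w w - 2 * T w w w * T s' s w ≠ 0

/-- rank zero point: existence of a good point -/
def G_NODE : Prop := ∀ (T : Tri) (P : V), Sym T → P ≠ 0 → (∀ v v', T P v v' = 0) →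
  Nodal T P →
  ∃ u : V, LinearIndependent ℂ ![P, u] ∧ T u u u = 0 ∧ (∃ v, T u u v ≠ 0) ∧
    ∀ s, SingPt T P s → T s u u ≠ 0

/-- ternary conic and cubic -/
def G_CC : Prop := ∀ (T : Tri) (u : V) (H : Submodule ℂ V), Sym T → 3 ≤ Module.finrank ℂ H →
  ∃ v ∈ H, v ≠ 0 ∧ T u v v = 0 ∧ T v v v = 0

/-- normalisation -/
def G_NORM : Prop := ∀ (T : Tri) (P u v : V), Sym T → (∀ x y, T P x y = 0) →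
  LinearIndependent ℂ ![P, u, v] → T u u u = 0 → T u u v = 0 → T u v v = 0 → T v v v = 0 →
  (∀ a b : ℂ, (a ≠ 0 ∨ b ≠ 0) → ∃ x, T (a • u + b • v) (a • u + b • v) x ≠ 0) →
  ∃ e κ, A5data T e κ

def G_LOW : Prop := ∀ T : Tri, Sym T → LowRank T → Bad T

end CF55
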