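import Pool.Agent.Helper55.CF.Defs

/-!
# Auxiliary definitions (not used in the final statement)
-/

open MeasureTheory Complex
open scoped ContDiff ComplexConjugate

noncomputable section
namespace CF55

abbrev V := Fin 6 → ℂ
abbrev Z := Fin 3 → ℂ
abbrev E := ℂ × ℂ × Z
abbrev X5 := Fin 5 → ℂ
abbrev Tri := V →ₗ[ℂ] V →ₗ[ℂ] V →ₗ[ℂ] ℂ

/-- symmetry of a trilinear form -/
structure Sym (T : Tri) : Prop where
  s12 : ∀ x y z, T x y z = T y x z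
  s23 : ∀ x y z, T x y z = T x z y

/-- the point of `V` with affine coordinates `p = (x, y, z)` in the frame `e` -/
def chartVec (e : Fin 6 → V) (p : E) : V :=
  e 0 + p.1 • e 1 + p.2.1 • e 2 + p.2.2 0 • e 3 + p.2.2 1 • e 4 + p.2.2 2 • e 5

def chart (T : Tri) (e : Fin 6 → V) (p : E) : ℂ :=
  T (chartVec e p) (chartVec e p) (chartVec e p)

/-- The analytic consequence of `minimal exponent ≥ 2` at the origin. -/
def GoodOn {X : Type} [NormedAddCommGroup X] [NormedSpace ℝ X] [MeasureSpace X]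
    (f : X → ℂ) : Prop :=
  ∃ r : ℝ, 0 < r ∧ ∀ ψ : X → ℝ, ContDiff ℝ ∞ ψ → HasCompactSupport ψ →
    tsupport ψ ⊆ Metric.ball 0 r →
    ∃ (C : ℝ) (k : ℕ), ∀ R : ℝ, 2 ≤ R →
      |∫ x, Real.exp (-(R * ‖f x‖ ^ 2)) * ψ x| ≤ C * Real.log R ^ k / R ∧
      |∫ x, (R * ‖f x‖ ^ 2 - 1) * Real.exp (-(R * ‖f x‖ ^ 2)) * ψ x| ≤ C * Real.log R ^ k / R ^ 2

/-- moments -/
def mu (p : MvPolynomial (Fin 5) ℂ) (ψ : X5 → ℂ) (k : ℕ) : ℂ :=
  ∫ x, ((‖MvPolynomial.eval x p‖ ^ 2 : ℝ) : ℂ) ^ k * ψ x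

/-- test functions on `ℂ⁵` supported in the open set `U` -/
def Test (U : Set X5) (ψ : X5 → ℂ) : Prop :=
  ContDiff ℝ ∞ ψ ∧ HasCompactSupport ψ ∧ tsupport ψ ⊆ U

/-- `S(a)(R) = ∑ (-R)^k / k! · a_k` -/
def Ser (a : ℕ → ℂ) (R : ℝ) : ℂ := ∑' k : ℕ, ((-R : ℝ) : ℂ) ^ k / (k.factorial : ℂ) * a k

/-! ## Types of singular points -/

/-- type 1: weights with a pair -/
structure A1data (T : Tri) (e : Fin 6 → V) (w : Fin 6 → ℕ) (d : ℕ) : Prop where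
  li : LinearIndependent ℂ e
  w0 : w 0 = 0
  wpos : ∀ i, i ≠ 0 → 0 < w i
  pair : w 1 + w 2 = d
  le12 : w 1 ≤ w 2
  sum : ∑ i, w i < 2 * d
  t00 : ∀ a, T (e 0) (e 0) (e a) = 0
  t011 : T (e 0) (e 1) (e 1) = 0
  t022 : T (e 0) (e 2) (e 2) = 0
  t012 : T (e 0) (e 1) (e 2) ≠ 0
  supp : ∀ a b c, T (e a) (e b) (e c) ≠ 0 → d ≤ w a + w b + w c

/-- type 2: rank one point and a good line -/
structure A2data (T : Tri) (e : Fin 6 → V) : Prop where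
  li : LinearIndependent ℂ e
  t00 : ∀ a, T (e 0) (e 0) (e a) = 0
  t0 : ∀ a b, ¬ (a = 2 ∧ b = 2) → T (e 0) (e a) (e b) = 0
  t022 : T (e 0) (e 2) (e 2) = 1 / 3
  t111 : T (e 1) (e 1) (e 1) = 0
  t112 : T (e 1) (e 1) (e 2) = 0
  t122 : T (e 1) (e 2) (e 2) = 0
  t222 : T (e 2) (e 2) (e 2) = 0
  t223 : T (e 2) (e 2) (e 3) = 0
  t224 : T (e 2) (e 2) (e 4) = 0
  t225 : T (e 2) (e 2) (e 5) = 0
  t113 : T (e 1) (e 1) (e 3) = 1 / 3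
  t114 : T (e 1) (e 1) (e 4) = 0
  t115 : T (e 1) (e 1) (e 5) = 0
  t123 : T (e 1) (e 2) (e 3) = 0

/-- type 3: a form in four variables with a smooth zero -/
structure A3data (T : Tri) (e : Fin 6 → V) : Prop where
  li : LinearIndependent ℂ e
  t0 : ∀ v v', T (e 0) v v' = 0
  t2 : ∀ v v', T (e 2) v v' = 0
  t111 : T (e 1) (e 1) (e 1) = 0
  t113 : T (e 1) (e 1) (e 3) = 1 / 3
  t114 : T (e 1) (e 1) (e 4) = 0
  t115 : T (e 1) (e 1) (e 5) = 0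

/-- type 4: a cube -/
structure A4data (T : Tri) (e : Fin 6 → V) : Prop where
  li : LinearIndependent ℂ e
  t : ∀ a b c, ¬ (a = 1 ∧ b = 1 ∧ c = 1) → T (e a) (e b) (e c) = 0
  t111 : T (e 1) (e 1) (e 1) ≠ 0

/-- type 5: rank zero point and a line avoiding the singular points -/
structure A5data (T : Tri) (e : Fin 6 → V) (κ : ℂ) : Prop where
  li : LinearIndependent ℂ e
  hκ : κ = 0 ∨ κ = 1
  t0 : ∀ v v', T (e 0) v v' = 0
  t111 : T (e 1) (e 1) (e 1) = 0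
  t112 : T (e 1) (e 1) (e 2) = 0
  t122 : T (e 1) (e 2) (e 2) = 0
  t222 : T (e 2) (e 2) (e 2) = 0
  t113 : T (e 1) (e 1) (e 3) = 1 / 3
  t114 : T (e 1) (e 1) (e 4) = 0
  t115 : T (e 1) (e 1) (e 5) = 0
  t223 : T (e 2) (e 2) (e 3) = 0
  t224 : T (e 2) (e 2) (e 4) = 1 / 3
  t225 : T (e 2) (e 2) (e 5) = 0
  t123 : T (e 1) (e 2) (e 3) = 0
  t124 : T (e 1) (e 2) (e 4) = 0
  t125 : T (e 1) (e 2) (e 5) = κ / 3

/-- one of the types occurs -/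
def Bad (T : Tri) : Prop :=
  T = 0 ∨ (∃ e w d, A1data T e w d) ∨ (∃ e, A2data T e) ∨ (∃ e, A3data T e) ∨
    (∃ e, A4data T e) ∨ (∃ e κ, A5data T e κ)

/-- numerical instability -/
def Unstable (T : Tri) : Prop :=
  ∃ e : Fin 6 → V, LinearIndependent ℂ e ∧ ∃ w : Fin 6 → ℝ, Monotone w ∧ w 0 = 0 ∧
    ∀ a b c, T (e a) (e b) (e c) ≠ 0 → (∑ i, w i) / 2 < w a + w b + w c

/-- a point `P` whose quadratic term is a product of two independent linear forms, with a flag -/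
def R2pat (T : Tri) : Prop :=
  ∃ P : V, P ≠ 0 ∧ (∀ v, T P P v = 0) ∧ ∃ y₁ y₂ : V →ₗ[ℂ] ℂ, LinearIndependent ℂ ![y₁, y₂] ∧
    (∀ v, T P v v = y₁ v * y₂ v) ∧
    ∃ K₂ K₁ : Submodule ℂ V, P ∈ K₂ ∧ K₂ ≤ K₁ ∧ K₁ ≤ LinearMap.ker y₁ ⊓ LinearMap.ker y₂ ∧
      2 ≤ Module.finrank ℂ K₂ ∧ 3 ≤ Module.finrank ℂ K₁ ∧
      ∀ a ∈ K₂, ∀ b ∈ K₁, ∀ v ∈ LinearMap.ker y₁ ⊓ LinearMap.ker y₂, T a b v = 0

/-- a singular point whose quadratic term has rank at most one -/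
def LowRank (T : Tri) : Prop :=
  ∃ P : V, P ≠ 0 ∧ (∀ v, T P P v = 0) ∧ ∃ m : V →ₗ[ℂ] ℂ, ∀ v, T P v v = m v ^ 2

/-- the form depends on at most four variables -/
def TwoKer (T : Tri) : Prop :=
  ∃ n₀ n₁ : V, LinearIndependent ℂ ![n₀, n₁] ∧ (∀ v v', T n₀ v v' = 0) ∧ ∀ v v', T n₁ v v' = 0

/-- `s` is a singular point different from the vertex `P` -/
def SingPt (T : Tri) (P s : V) : Prop := LinearIndependent ℂ ![P, s] ∧ ∀ v, T s s v = 0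

end CF55
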